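import Pool.Agent.Helper91.FD.Pure

/-!
Twisted tensors give pure tensors.
-/

set_option autoImplicit false
set_option linter.unusedSectionVars false

namespace Pool.Agent.Helper91.FD

open Module FF Pool.Agent.W602.GT Pool.Agent.W603.LV Pool.Agent.TH143.GT Pool.Agent.Y220.OG
  Pool.Agent.Helper12.BL Pool.Agent.Helper91.HM Pool.Agent.Helper91.HM.Tw

variable {K : Type} [Field K] [Algebra ℂ K] {V : Type} [AddCommGroup V] [Module K V] {n r : ℕ}
  {ι : V →ₗ[K] Derivation ℂ K K}

section det

variable [FiniteDimensional K V]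

open Classical in
/-- the determinant of the coordinates in the basis `B` -/
noncomputable def detM (hr : finrank K V = r) (B : Fin r → V) :
    MultilinearMap K (fun _ : Fin r => V) K :=
  if h : LinearIndependent K B then (Basis.mk h (span_top hr h).ge).det.toMultilinearMap else 0

theorem detM_lt (hr : finrank K V = r) {B : Fin r → V} (h : LinearIndependent K B)
    (Y : Matrix (Fin r) (Fin r) K) : detM hr B (lt Y B) = Y.det := by
  rw [detM, dif_pos h]
  change (Basis.mk h (span_top hr h).ge).det (lt Y B) = Y.det
  rw [Basis.det_apply, ← Matrix.det_transpose]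
  congr 1
  ext i l
  rw [Matrix.transpose_apply, Basis.toMatrix_apply, lt, map_sum, Finsupp.coe_finsetSum,
    Finset.sum_apply, Finset.sum_eq_single l]
  · rw [map_smul, Finsupp.smul_apply, Basis.mk_repr, LinearIndependent.repr_eq_single _ l]
    · rw [Finsupp.single_eq_same, smul_eq_mul, mul_one]
    · rfl
  · intro j _ hj
    rw [map_smul, Finsupp.smul_apply, Basis.mk_repr, LinearIndependent.repr_eq_single _ j]
    · rw [Finsupp.single_eq_of_ne hj.symm, smul_zero]
    · rfl
  · intro hl
    exact absurd (Finset.mem_univ _) hl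

theorem detM_change (hr : finrank K V = r) {B : Fin r → V} (h : LinearIndependent K B)
    {A : Matrix (Fin r) (Fin r) K} (hA : A.det ≠ 0) (y : Fin r → V) :
    detM hr (lt A B) y = A.det⁻¹ * detM hr B y := by
  have h1 : LinearIndependent K (lt A B) := lt_li.2 ⟨h, hA⟩
  obtain ⟨Y, rfl⟩ := exists_lt (D := y) (span_top hr h1)
  rw [detM_lt hr h1, lt_lt, detM_lt hr h, Matrix.det_mul]
  field_simp

end det

/-- the product of multilinear maps in disjoint sets of variables -/
noncomputable def mulM {N : ℕ} (s : MultilinearMap K (fun _ : Fin N => V) K)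
    (d : MultilinearMap K (fun _ : Fin r => V) K) : MultilinearMap K (fun _ : Fin (N + r) => V) K :=
  ((LinearMap.mul' K K).compMultilinearMap (s.domCoprod d)).domDomCongr finSumFinEquiv

theorem mulM_apply {N : ℕ} (s : MultilinearMap K (fun _ : Fin N => V) K)
    (d : MultilinearMap K (fun _ : Fin r => V) K) (v : Fin (N + r) → V) :
    mulM s d v = s (fun j => v (Fin.castAdd r j)) * d (fun i => v (Fin.natAdd N i)) := by
  rfl

theorem card_split {N : ℕ} (p : Fin (N + r) → Prop) :
    Nat.card {j : Fin (N + r) // p j} = Nat.card {j : Fin N // p (Fin.castAdd r j)} +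
      Nat.card {i : Fin r // p (Fin.natAdd N i)} := by
  have e : {j : Fin (N + r) // p j} ≃ {j : Fin N ⊕ Fin r // p (finSumFinEquiv j)} :=
    (Equiv.subtypeEquiv finSumFinEquiv fun j => Iff.rfl).symm
  rw [Nat.card_congr (e.trans Equiv.subtypeSum), Nat.card_sum]
  rfl

theorem reg_of_gr {P : Place ℂ K} {f : K} (h : Gr P 0 f) : P.Reg f := by
  rcases h with h | h
  · exact Or.inl h
  · exact Or.inr (by exact_mod_cast h)

theorem gr_of_reg {P : Place ℂ K} {f : K} (h : P.Reg f) : Gr P 0 f := by
  rcases h with h | h
  · exact Or.inl h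
  · exact Or.inr (by exact_mod_cast h)

/-- the entries of the adjugate of a regular matrix are regular -/
theorem adj_reg {P : Place ℂ K} {Y : Matrix (Fin r) (Fin r) K} (h : ∀ i j, P.Reg (Y i j))
    (i j : Fin r) : P.Reg (Y.adjugate i j) := by
  classical
  rw [Matrix.adjugate_apply]
  refine reg_of_gr (det_reg fun k l => ?_)
  rw [Matrix.updateRow_apply]
  split_ifs
  · by_cases hl : l = i
    · rw [hl, Pi.single_eq_same]
      exact reg_of_gr Gr.one
    · rw [Pi.single_eq_of_ne hl]
      exact P.reg_zero
  · exact h k l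

/-- frames are bases -/
theorem li_of_fr [Algebra.EssFiniteType ℂ K] (hn : Algebra.trdeg ℂ K = n)
    (hι : Function.Injective ι) [FiniteDimensional K V] (hr : finrank K V = r) {P : Place ℂ K}
    (hP : Divisorial n P) {B0 : Fin r → V} (hB0 : LinearIndependent K B0) {B : Fin r → V}
    (hB : IsFr ι P B) : LinearIndependent K B := by
  obtain ⟨E, hE, hEf, -⟩ := exists_adp hn hι hr hB0 (fun _ => 0) hP
  have h1 : ⊤ ≤ Submodule.span K (Set.range B) := by
    rw [← span_top hr hE.1, Submodule.span_le]
    rintro _ ⟨i, rfl⟩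
    obtain ⟨c, -, hc⟩ := hB.2 (E i) (hEf.1 i)
    rw [hc]
    exact Submodule.sum_mem _ fun j _ => Submodule.smul_mem _ _ (Submodule.subset_span ⟨j, rfl⟩)
  refine linearIndependent_of_top_le_span_of_card_eq_finrank h1 ?_
  rw [Fintype.card_fin, hr]

/-- one twist less -/
theorem ten_tw [Algebra.EssFiniteType ℂ K] (hn : Algebra.trdeg ℂ K = n)
    (hι : Function.Injective ι) [FiniteDimensional K V] (hr : finrank K V = r)
    {X : Set (Place ℂ K)} {δ : Place ℂ K → ℝ} (hδ : ∀ P ∈ X, 0 ≤ δ P) (hδ1 : ∀ P ∈ X, δ P ≤ 1)
    {B0 : Fin r → V} (hB0 : LinearIndependent K B0) {N : ℕ} {a : ℤ}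
    {s : (Fin r → V) → MultilinearMap K (fun _ : Fin N => V) K}
    (hs : IsTen n X δ ι (a + 1) s) : IsTen n X δ ι a (fun B => mulM (s B) (detM hr B)) := by
  classical
  refine ⟨fun A B hB hA => ?_, fun P hP hdiv B hB D hD => ?_⟩
  · ext v
    rw [smul_apply, mulM_apply, mulM_apply, hs.1 A B hB hA, detM_change hr hB hA,
      smul_apply, smul_eq_mul, smul_eq_mul, zpow_add₀ hA, zpow_one]
    field_simp
  · have hli := li_of_fr hn hι hr hdiv hB0 hB
    have h1 := hs.2 P hP hdiv B hB (fun j => D (Fin.castAdd r j)) fun j => hD _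
    set x := s B (fun j => D (Fin.castAdd r j)) with hx
    set y : Fin r → V := fun i => D (Fin.natAdd N i) with hy
    have hyr : ∀ i, VReg ι P (y i) := fun i => hD _
    choose c hc hcy using fun i => hB.2 (y i) (hyr i)
    obtain ⟨Y, hY⟩ : ∃ Y : Matrix (Fin r) (Fin r) K, Y = Matrix.of c := ⟨_, rfl⟩
    have hYr : ∀ i j, P.Reg (Y i j) := fun i j => by
      rw [hY]
      exact hc i j
    have hyY : y = lt Y B := by
      funext i
      rw [hcy i, hY]
      rfl
    rw [mulM_apply, ← hx, ← hy, hyY, detM_lt hr hli, card_split]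
    have hdet : Gr P 0 Y.det := det_reg hYr
    have hd0 : 0 ≤ dl δ ι P := dl_nonneg (hδ P hP)
    set c1 : ℕ := Nat.card {j : Fin N // ¬ VLog ι P (D (Fin.castAdd r j))} with hc1
    set c2 : ℕ := Nat.card {i : Fin r // ¬ VLog ι P (D (Fin.natAdd N i))} with hc2
    by_cases hlog : ∀ i, VLog ι P (y i)
    · -- all entries are logarithmic
      have h2 : Gr P (dl δ ι P) Y.det := by
        by_cases hinv : VInv ι P
        · rw [dl, if_pos hinv]
          exact hdet
        · rw [dl, if_neg hinv]
          by_cases h0 : Y.det = 0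
          · exact Or.inl h0
          have h3 : 0 ≤ P.ord Y.det := (reg_of_gr hdet).resolve_left h0
          rcases h3.lt_or_eq with h4 | h4
          · right
            have h5 : (1 : ℤ) ≤ P.ord Y.det := h4
            have h6 : (1 : ℝ) ≤ (P.ord Y.det : ℝ) := by exact_mod_cast h5
            exact (hδ1 P hP).trans h6
          · exfalso
            apply hinv
            have hunit : IsUnit Y.det := isUnit_iff_ne_zero.2 h0
            have hBy : B = lt Y⁻¹ y := by
              rw [hyY, lt_lt, Matrix.nonsing_inv_mul _ hunit, lt_one]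
            have hBlog : ∀ i, VLog ι P (B i) := by
              intro i
              rw [hBy]
              refine vlog_sum (fun j => ?_) hlog
              rw [Matrix.inv_def, Matrix.smul_apply, smul_eq_mul]
              refine reg_of_gr ?_
              have h5 : Gr P 0 (Ring.inverse Y.det) := by
                rw [Ring.inverse_eq_inv']
                right
                rw [P.ord_inv, ← h4]
                norm_num
              have h6 := h5.mul (gr_of_reg (adj_reg hYr i j))
              rwa [add_zero] at h6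
            intro v hv
            obtain ⟨c', hc', hcv⟩ := hB.2 v hv
            rw [hcv]
            exact vlog_sum hc' hBlog
      refine Gr.mono ?_ (h1.mul h2)
      have hc20 : (0 : ℝ) ≤ c2 := Nat.cast_nonneg _
      push_cast
      nlinarith
    · -- some entry is not logarithmic
      push Not at hlog
      obtain ⟨i, hi⟩ := hlog
      have h2 : 1 ≤ c2 := by
        rw [hc2]
        have : Nonempty {i : Fin r // ¬ VLog ι P (D (Fin.natAdd N i))} := ⟨⟨i, hi⟩⟩
        exact Nat.card_pos
      have h3 : (1 : ℝ) ≤ c2 := by exact_mod_cast h2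
      refine Gr.mono ?_ (h1.mul hdet)
      push_cast
      nlinarith

/-- If there are no pure tensors then there are no tensors with values in `a (K + Δ)`, `a ≥ 0`,
for coefficients in `[0, 1]`.

Proof.  Fix a basis `B0 = B` with `s B ≠ 0`.  Let `det_B (y_1, ..., y_r)` be the determinant of the
coordinates of the `y_i` in the basis `B` and consider
`t (x, y_1, ..., y_a) = s B (x) * ∏_b det_B (y_b)` where `x` has `N` entries and each `y_b` has `r`
entries: it does not depend on the basis `B`, it has degree `M = N + a * r > 0`, it is nonzero.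
At `P ∈ X` take a frame `B` (it exists by `exists_adp`, with `e = 0`).  If `P` is invariant then
`dl = 0` and everything is regular.  Otherwise `dl = δ P ∈ [0, 1]`, `s B x` has a pole of order at
most `(q + a) δ P`, and `det_B (y_b)` is regular, and it has a zero if all entries of `y_b` are
logarithmic (otherwise its inverse is regular, the entries of `y_b` are a frame, and `P` is
invariant), so that the pole of `t` is at most
`(q + a) δ P - #{b | all entries of y_b are log} ≤ (q + #{b | some entry of y_b is not log}) δ P`.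
The same for `f j • s`. -/
theorem noTwisted [Algebra.EssFiniteType ℂ K] (hn : Algebra.trdeg ℂ K = n)
    (hι : Function.Injective ι) [FiniteDimensional K V] (hr : finrank K V = r) (hr0 : 0 < r)
    {X : Set (Place ℂ K)} {δ : Place ℂ K → ℝ} (hδ : ∀ P ∈ X, 0 ≤ δ P) (hδ1 : ∀ P ∈ X, δ P ≤ 1)
    {κ : ℕ} (h : NoPure n X δ ι κ) {N a : ℕ} (hNa : 0 < N + a)
    {s : (Fin r → V) → MultilinearMap K (fun _ : Fin N => V) K}
    (hs : IsMov n X δ ι κ (a : ℤ) s) {B : Fin r → V} (hB : LinearIndependent K B) : s B = 0 := by
  classical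
  induction a generalizing N with
  | zero =>
    have key : ∀ s' : (Fin r → V) → MultilinearMap K (fun _ : Fin N => V) K,
        IsTen n X δ ι ((0 : ℕ) : ℤ) s' → IsPure n X δ ι (s' B) := by
      intro s' hs' P hP hdiv D hD
      obtain ⟨E, hE, hEf, -⟩ := exists_adp hn hι hr hB (fun _ => 0) hdiv
      obtain ⟨A, hA⟩ := exists_lt (D := E) (span_top hr hB)
      have hA0 : A.det ≠ 0 := by
        have h1 := hE.1
        rw [hA] at h1
        exact (lt_li.1 h1).2
      have h2 := hs'.1 A B hB hA0
      rw [← hA, Nat.cast_zero, zpow_zero, one_smul] at h2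
      have h3 := hs'.2 P hP hdiv E hEf D hD
      rw [h2] at h3
      refine Gr.mono (le_of_eq ?_) h3
      simp
    obtain ⟨h1, f, hf, h2⟩ := hs
    exact h N (by omega) (s B) ⟨key s h1, f, hf, fun j => key _ (h2 j)⟩
  | succ a ih =>
    obtain ⟨h1, f, hf, h2⟩ := hs
    rw [Nat.cast_succ] at h1
    have h3 : IsMov n X δ ι κ (a : ℤ) (fun B => mulM (s B) (detM hr B)) := by
      refine ⟨ten_tw hn hι hr hδ hδ1 hB h1, f, hf, fun j => ?_⟩
      have h4 := h2 j
      rw [Nat.cast_succ] at h4
      have h5 := ten_tw hn hι hr hδ hδ1 hB h4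
      have h6 : (fun B => f j • mulM (s B) (detM hr B)) =
          fun B => mulM (f j • s B) (detM hr B) := by
        funext B'
        ext v
        rw [smul_apply, mulM_apply, mulM_apply, smul_apply,
          smul_eq_mul, smul_eq_mul, mul_assoc]
      rw [h6]
      exact h5
    have h4 := ih (N := N + r) (by omega) h3
    ext x
    have h5 : mulM (s B) (detM hr B) (Fin.append x B) = 0 := by
      rw [h4]
      rfl
    rw [mulM_apply] at h5
    have h6 : (fun j => Fin.append x B (Fin.castAdd r j)) = x := by
      funext j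
      exact Fin.append_left _ _ _
    have h7 : (fun i => Fin.append x B (Fin.natAdd N i)) = lt (1 : Matrix (Fin r) (Fin r) K) B := by
      funext i
      rw [lt_one]
      exact Fin.append_right _ _ _
    rw [h6, h7, detM_lt hr hB, Matrix.det_one, mul_one] at h5
    rw [h5]
    rfl

end Pool.Agent.Helper91.FD
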