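import Pool.Agent.Helper91.LV.Main

/-!
Tensors on a space `V` of rational vector fields.
-/

set_option autoImplicit false
set_option linter.unusedSectionVars false

namespace Pool.Agent.Helper91.FD

open Module FF Pool.Agent.W602.GT Pool.Agent.W603.LV Pool.Agent.TH143.GT Pool.Agent.Y220.OG
  Pool.Agent.Helper12.BL Pool.Agent.Helper91.HM Pool.Agent.Helper91.HM.Tw

section defs

variable {K : Type} [Field K] [Algebra ℂ K] {V : Type} [AddCommGroup V] [Module K V] {r : ℕ}

/-- `v` is regular at `P` -/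
def VReg (ι : V →ₗ[K] Derivation ℂ K K) (P : Place ℂ K) (v : V) : Prop := DerReg P (ι v)

/-- `v` is logarithmic at `P` -/
def VLog (ι : V →ₗ[K] Derivation ℂ K K) (P : Place ℂ K) (v : V) : Prop := DerLog P (ι v)

/-- `P` is invariant -/
def VInv (ι : V →ₗ[K] Derivation ℂ K K) (P : Place ℂ K) : Prop := ∀ v, VReg ι P v → VLog ι P v

open Classical in
/-- the coefficient at `P` -/
noncomputable def dl (δ : Place ℂ K → ℝ) (ι : V →ₗ[K] Derivation ℂ K K) (P : Place ℂ K) : ℝ :=
  if VInv ι P then 0 else δ P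

/-- frames -/
def IsFr (ι : V →ₗ[K] Derivation ℂ K K) (P : Place ℂ K) (B : Fin r → V) : Prop :=
  (∀ i, VReg ι P (B i)) ∧ ∀ v, VReg ι P v → ∃ c : Fin r → K, (∀ i, P.Reg (c i)) ∧
    v = ∑ i, c i • B i

/-- tensors -/
def IsTen (n : ℕ) (X : Set (Place ℂ K)) (δ : Place ℂ K → ℝ) (ι : V →ₗ[K] Derivation ℂ K K) {N : ℕ}
    (a : ℤ) (s : (Fin r → V) → MultilinearMap K (fun _ : Fin N => V) K) : Prop :=
  (∀ (A : Matrix (Fin r) (Fin r) K) (B : Fin r → V), LinearIndependent K B → A.det ≠ 0 →
    s (lt A B) = A.det ^ a • s B) ∧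
  ∀ P ∈ X, Divisorial n P → ∀ B : Fin r → V, IsFr ι P B → ∀ D : Fin N → V,
    (∀ j, VReg ι P (D j)) →
      Gr P (-(((Nat.card {j : Fin N // ¬ VLog ι P (D j)} : ℝ) + a) * dl δ ι P)) (s B D)

/-- movable tensors -/
def IsMov (n : ℕ) (X : Set (Place ℂ K)) (δ : Place ℂ K → ℝ) (ι : V →ₗ[K] Derivation ℂ K K) (κ : ℕ)
    {N : ℕ} (a : ℤ) (s : (Fin r → V) → MultilinearMap K (fun _ : Fin N => V) K) : Prop :=
  IsTen n X δ ι a s ∧ ∃ f : Fin κ → K, AlgebraicIndependent ℂ f ∧
    ∀ j, IsTen n X δ ι a (fun B => f j • s B)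

/-- sections of multiples of the canonical divisor -/
def IsSec (n : ℕ) (X : Set (Place ℂ K)) (δ : Place ℂ K → ℝ) (ι : V →ₗ[K] Derivation ℂ K K) (m : ℕ)
    (ω : (Fin r → V) → K) : Prop :=
  (∀ (A : Matrix (Fin r) (Fin r) K) (D : Fin r → V), ω (lt A D) = A.det ^ m * ω D) ∧
  ∀ P ∈ X, Divisorial n P → ∀ D : Fin r → V, (∀ i, VReg ι P (D i)) →
    Gr P (-(m * dl δ ι P)) (ω D)

/-- the Kodaira dimension -/
def KodGe (r n : ℕ) (X : Set (Place ℂ K)) (δ : Place ℂ K → ℝ) (ι : V →ₗ[K] Derivation ℂ K K)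
    (κ : ℕ) : Prop :=
  ∃ m : ℕ, 0 < m ∧ ∃ ω : Fin (κ + 1) → (Fin r → V) → K, (∀ j, IsSec n X δ ι m (ω j)) ∧
    ∃ D, ω 0 D ≠ 0 ∧ AlgebraicIndependent ℂ (fun i : Fin κ => ω i.succ D / ω 0 D)

/-- the members of a flag -/
def mem (b : Fin r → V) (e : Fin r → ℤ) (t : ℤ) : Submodule K V :=
  Submodule.span K (b '' {j | e j ≤ t})

/-- adapted bases -/
def Adp (b : Fin r → V) (e : Fin r → ℤ) (D : Fin r → V) : Prop :=
  LinearIndependent K D ∧ ∀ j, D j ∈ (mem b e (e j) : Submodule K V)

/-- sections of the divisor of a flag -/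
def IsFlag (n : ℕ) (X : Set (Place ℂ K)) (δ : Place ℂ K → ℝ) (ι : V →ₗ[K] Derivation ℂ K K)
    (b : Fin r → V) (e : Fin r → ℤ) (ω : (Fin r → V) → K) : Prop :=
  (∀ (A : Matrix (Fin r) (Fin r) K) (D : Fin r → V), Adp (K := K) b e D → A.det ≠ 0 →
    (∀ i j, A i j ≠ 0 → e j ≤ e i) → ω (lt A D) =
      (∏ t ∈ Finset.univ.image e, (A.toSquareBlock e t).det ^ t) * ω D) ∧
  ∀ P ∈ X, Divisorial n P → ∀ D : Fin r → V, Adp (K := K) b e D → IsFr ι P D →
    (∀ i, ¬ VLog ι P (D i) → (∀ j, e j < e i → VLog ι P (D j)) → Gr P (-(e i * δ P)) (ω D)) ∧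
    ((∀ j, VLog ι P (D j)) → Gr P 0 (ω D))

end defs

section lattice

variable {K : Type} [Field K] [Algebra ℂ K] {V : Type} [AddCommGroup V] [Module K V] {n r : ℕ}
  {ι : V →ₗ[K] Derivation ℂ K K} {P : Place ℂ K}

theorem vreg_sum {m : ℕ} {c : Fin m → K} {B : Fin m → V}
    (hc : ∀ i, P.Reg (c i)) (hB : ∀ i, VReg ι P (B i)) : VReg ι P (∑ i, c i • B i) := by
  rw [VReg, map_sum]
  simp only [map_smul]
  exact derReg_sum hc hB

theorem vlog_sum {m : ℕ} {c : Fin m → K} {B : Fin m → V}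
    (hc : ∀ i, P.Reg (c i)) (hB : ∀ i, VLog ι P (B i)) : VLog ι P (∑ i, c i • B i) := by
  rw [VLog, map_sum]
  simp only [map_smul]
  exact derLog_sum hc hB

theorem vreg_smul {v : V} (hv : VReg ι P v) {c : K} (hc : P.Reg c) : VReg ι P (c • v) := by
  rw [VReg, map_smul]
  exact derReg_smul hv hc

theorem vreg_sub {v v' : V} (hv : VReg ι P v) (hv' : VReg ι P v') : VReg ι P (v - v') := by
  rw [VReg, map_sub]
  exact derReg_sub hv hv'

theorem span_top [FiniteDimensional K V] (hr : finrank K V = r) {B : Fin r → V}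
    (hB : LinearIndependent K B) : Submodule.span K (Set.range B) = ⊤ := by
  apply Submodule.eq_top_of_finrank_eq
  rw [finrank_span_eq_card hB, Fintype.card_fin, hr]

/-- Adapted frames exist. -/
theorem exists_adp [Algebra.EssFiniteType ℂ K] (hn : Algebra.trdeg ℂ K = n)
    (hι : Function.Injective ι) [FiniteDimensional K V] (hr : finrank K V = r)
    {b : Fin r → V} (hb : LinearIndependent K b) (e : Fin r → ℤ)
    (hP : Divisorial n P) :
    ∃ E : Fin r → V, Adp (K := K) b e E ∧ IsFr ι P E ∧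
      ∀ t, ∀ D ∈ (mem b e t : Submodule K V), VReg ι P D → ∃ c : Fin r → K, (∀ i, P.Reg (c i)) ∧
        (∀ i, c i ≠ 0 → e i ≤ t) ∧ D = ∑ i, c i • E i := by
  classical
  obtain ⟨E0, hE0, hframe0⟩ := exists_frame hn hP
  have hbs := span_top hr hb
  obtain ⟨bas, hbas⟩ : ∃ bas : Basis (Fin r) K V, ∀ j, bas j = b j :=
    ⟨Basis.mk hb hbs.ge, fun j => by rw [Basis.mk_apply]⟩
  obtain ⟨π, hπ0, hπ⟩ := P.surj
  obtain ⟨lf, hlf⟩ := ι.exists_leftInverse_of_injective (LinearMap.ker_eq_bot.2 hι)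
  have hlf' : ∀ v, lf (ι v) = v := fun v => congrArg (fun φ => φ v) hlf
  -- the order of the indices
  obtain ⟨key, hkey⟩ : ∃ key : Fin r → ℤ ×ₗ Fin r, ∀ l, key l = toLex (e l, l) := ⟨_, fun _ => rfl⟩
  have hkinj : Function.Injective key := by
    intro l l' h
    rw [hkey, hkey] at h
    have h1 := congrArg ofLex h
    rw [ofLex_toLex, ofLex_toLex, Prod.mk.injEq] at h1
    exact h1.2
  have hke : ∀ l l', key l ≤ key l' → e l ≤ e l' := by
    intro l l' h
    rw [hkey, hkey, Prod.Lex.toLex_le_toLex] at h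
    rcases h with h | h
    · exact h.le
    · exact h.1.le
  -- the vectors
  have hstep : ∀ j, ∃ Ej : V, VReg ι P Ej ∧
      (∀ l, bas.repr Ej l ≠ 0 → key l ≤ key j) ∧ bas.repr Ej j ≠ 0 ∧
      ∀ D, VReg ι P D → (∀ l, bas.repr D l ≠ 0 → key l ≤ key j) →
        bas.repr D j = 0 ∨ P.ord (bas.repr Ej j) ≤ P.ord (bas.repr D j) := by
    intro j
    -- a lower bound
    obtain ⟨β, hβ⟩ : ∃ β : ℤ, ∀ l, Ge P β (bas.repr (lf (E0 l)) j) := by
      refine ⟨-∑ l, |P.ord (bas.repr (lf (E0 l)) j)|, fun l => Or.inr ?_⟩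
      have h1 : |P.ord (bas.repr (lf (E0 l)) j)| ≤ ∑ l, |P.ord (bas.repr (lf (E0 l)) j)| :=
        Finset.single_le_sum (f := fun l => |P.ord (bas.repr (lf (E0 l)) j)|)
          (fun i _ => abs_nonneg _) (Finset.mem_univ l)
      have h2 := neg_abs_le (P.ord (bas.repr (lf (E0 l)) j))
      linarith
    have hlow : ∀ D, VReg ι P D → Ge P β (bas.repr D j) := by
      intro D hD
      obtain ⟨c, hc, hcD⟩ := hframe0.2 (ι D) hD
      rw [← hlf' D, hcD, map_sum, map_sum, Finsupp.coe_finsetSum, Finset.sum_apply]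
      refine Ge.sum _ _ fun i _ => ?_
      rw [map_smul, map_smul, Finsupp.smul_apply, smul_eq_mul]
      have := Ge.mul (hc i) (hβ i)
      rwa [zero_add] at this
    -- a vector
    obtain ⟨c0, hc0⟩ : ∃ c0 : Fin n → K, ι (b j) = ∑ i, c0 i • E0 i := by
      have h1 : ι (b j) ∈ Submodule.span K (Set.range E0) := li_span hn hE0 ▸ Submodule.mem_top
      obtain ⟨c, hc⟩ := mem_span_fam.1 h1
      exact ⟨c, hc.symm⟩
    obtain ⟨N, hN⟩ : ∃ N : ℕ, ∀ i, P.Reg (π ^ N * c0 i) := by
      refine ⟨∑ i, (P.ord (c0 i)).natAbs, fun i => ?_⟩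
      by_cases h0 : c0 i = 0
      · rw [h0, mul_zero]
        exact P.reg_zero
      · right
        rw [P.ord_mul (pow_ne_zero _ hπ0) h0, P.ord_pow, hπ, mul_one]
        have h1 : (P.ord (c0 i)).natAbs ≤ ∑ i, (P.ord (c0 i)).natAbs :=
          Finset.single_le_sum (f := fun i => (P.ord (c0 i)).natAbs) (fun i _ => Nat.zero_le _)
            (Finset.mem_univ i)
        have h2 : ((P.ord (c0 i)).natAbs : ℤ) ≤ ((∑ i, (P.ord (c0 i)).natAbs : ℕ) : ℤ) := by
          exact_mod_cast h1
        omega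
    have hvec : VReg ι P (π ^ N • b j) := by
      rw [VReg, map_smul, hc0, Finset.smul_sum]
      simp only [smul_smul]
      exact derReg_sum hN hframe0.1
    have hvr : ∀ l, bas.repr (π ^ N • b j) l = if l = j then π ^ N else 0 := by
      intro l
      rw [map_smul, ← hbas, Basis.repr_self, Finsupp.smul_apply, Finsupp.single_apply, smul_eq_mul]
      by_cases h : l = j
      · rw [if_pos h.symm, if_pos h, mul_one]
      · rw [if_neg fun h' => h h'.symm, if_neg h, mul_zero]
    obtain ⟨z, ⟨D, hD1, hD2, hD3, hD4⟩, hz⟩ := Int.exists_least_of_bdd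
      (P := fun z => ∃ D, VReg ι P D ∧ (∀ l, bas.repr D l ≠ 0 → key l ≤ key j) ∧
        bas.repr D j ≠ 0 ∧ P.ord (bas.repr D j) = z)
      ⟨β, fun z ⟨D, h1, _, h3, h4⟩ => by
        rw [← h4]
        exact (hlow D h1).resolve_left h3⟩
      ⟨_, π ^ N • b j, hvec, fun l hl => by
        rw [hvr] at hl
        by_cases h : l = j
        · rw [h]
        · rw [if_neg h] at hl
          exact absurd rfl hl, by
        rw [hvr, if_pos rfl]
        exact pow_ne_zero _ hπ0, rfl⟩
    refine ⟨D, hD1, hD2, hD3, fun D' h1 h2 => ?_⟩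
    by_cases h3 : bas.repr D' j = 0
    · exact Or.inl h3
    · right
      rw [hD4]
      exact hz _ ⟨D', h1, h2, h3, rfl⟩
  choose E hEreg hEkey hEne hEmin using hstep
  -- expansions
  have hexp : ∀ (m : ℕ) (S : Finset (Fin r)), S.card = m →
      (∀ l ∈ S, ∀ l', key l' ≤ key l → l' ∈ S) → ∀ D, VReg ι P D →
      (∀ l, bas.repr D l ≠ 0 → l ∈ S) → ∃ c : Fin r → K, (∀ i, P.Reg (c i)) ∧
        (∀ i, c i ≠ 0 → i ∈ S) ∧ D = ∑ i, c i • E i := by
    intro m
    induction m with
    | zero =>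
      intro S hS _ D _ hDS
      rw [Finset.card_eq_zero] at hS
      refine ⟨fun _ => 0, fun _ => P.reg_zero, fun i h => absurd rfl h, ?_⟩
      simp only [zero_smul, Finset.sum_const_zero]
      apply bas.repr.injective
      rw [map_zero]
      ext l
      by_contra hne
      have h1 := hDS l hne
      rw [hS] at h1
      exact absurd h1 (Finset.notMem_empty l)
    | succ m ih =>
      intro S hS hlower D hD hDS
      have hSne : S.Nonempty := by
        rw [← Finset.card_pos, hS]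
        exact Nat.succ_pos m
      obtain ⟨j, hjS, hj⟩ := S.exists_max_image key hSne
      have hcardS : (S.erase j).card = m := by
        rw [Finset.card_erase_of_mem hjS, hS, Nat.add_sub_cancel]
      have hlow' : ∀ l ∈ S.erase j, ∀ l', key l' ≤ key l → l' ∈ S.erase j := by
        intro l hl l' hl'
        rw [Finset.mem_erase] at hl ⊢
        refine ⟨?_, hlower l hl.2 l' hl'⟩
        rintro rfl
        exact hl.1 (hkinj (le_antisymm (hj l hl.2) hl'))
      have hDk : ∀ l, bas.repr D l ≠ 0 → key l ≤ key j := fun l hl => hj l (hDS l hl)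
      obtain ⟨x, hx⟩ : ∃ x, x = bas.repr D j / bas.repr (E j) j := ⟨_, rfl⟩
      have hxr : P.Reg x := by
        rcases hEmin j D hD hDk with h | h
        · rw [hx, h, zero_div]
          exact P.reg_zero
        · by_cases h0 : bas.repr D j = 0
          · rw [hx, h0, zero_div]
            exact P.reg_zero
          · right
            rw [hx, P.ord_div h0 (hEne j)]
            omega
      have hD' : VReg ι P (D - x • E j) := vreg_sub hD (vreg_smul (hEreg j) hxr)
      have hrep : ∀ l, bas.repr (D - x • E j) l = bas.repr D l - x * bas.repr (E j) l := by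
        intro l
        rw [map_sub, map_smul, Finsupp.sub_apply, Finsupp.smul_apply, smul_eq_mul]
      obtain ⟨c, hc1, hc2, hc3⟩ := ih (S.erase j) hcardS hlow' _ hD' (by
        intro l hl
        rw [hrep] at hl
        rw [Finset.mem_erase]
        constructor
        · rintro rfl
          rw [hx, div_mul_cancel₀ _ (hEne l), sub_self] at hl
          exact hl rfl
        · by_contra hlS
          have h1 : bas.repr D l = 0 := by
            by_contra h1
            exact hlS (hDS l h1)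
          have h2 : bas.repr (E j) l = 0 := by
            by_contra h2
            exact hlS (hlower j hjS l (hEkey j l h2))
          rw [h1, h2, mul_zero, sub_zero] at hl
          exact hl rfl)
      refine ⟨fun i => c i + if i = j then x else 0, fun i => ?_, fun i hi => ?_, ?_⟩
      · refine P.reg_add (hc1 i) ?_
        split_ifs
        · exact hxr
        · exact P.reg_zero
      · by_cases h : i = j
        · rw [h]
          exact hjS
        · beta_reduce at hi
          rw [if_neg h, add_zero] at hi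
          exact Finset.mem_of_mem_erase (hc2 i hi)
      · simp only [add_smul, Finset.sum_add_distrib, ite_smul, zero_smul]
        rw [Finset.sum_ite_eq' Finset.univ j fun i => x • E i, if_pos (Finset.mem_univ _), ← hc3]
        abel
  have hframe : IsFr ι P E := by
    refine ⟨hEreg, fun D hD => ?_⟩
    obtain ⟨c, hc1, -, hc3⟩ := hexp _ Finset.univ rfl (fun _ _ _ _ => Finset.mem_univ _) D hD
      fun _ _ => Finset.mem_univ _
    exact ⟨c, hc1, hc3⟩
  have hscale : ∀ v : V, ∃ N : ℕ, VReg ι P (π ^ N • v) := by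
    intro v
    obtain ⟨c0, hc0⟩ : ∃ c0 : Fin n → K, ι v = ∑ i, c0 i • E0 i := by
      have h1 : ι v ∈ Submodule.span K (Set.range E0) := li_span hn hE0 ▸ Submodule.mem_top
      obtain ⟨c, hc⟩ := mem_span_fam.1 h1
      exact ⟨c, hc.symm⟩
    refine ⟨∑ i, (P.ord (c0 i)).natAbs, ?_⟩
    rw [VReg, map_smul, hc0, Finset.smul_sum]
    simp only [smul_smul]
    refine derReg_sum (fun i => ?_) hframe0.1
    by_cases h0 : c0 i = 0
    · rw [h0, mul_zero]
      exact P.reg_zero
    · right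
      rw [P.ord_mul (pow_ne_zero _ hπ0) h0, P.ord_pow, hπ, mul_one]
      have h1 : (P.ord (c0 i)).natAbs ≤ ∑ i, (P.ord (c0 i)).natAbs :=
        Finset.single_le_sum (f := fun i => (P.ord (c0 i)).natAbs) (fun i _ => Nat.zero_le _)
          (Finset.mem_univ i)
      have h2 : ((P.ord (c0 i)).natAbs : ℤ) ≤ ((∑ i, (P.ord (c0 i)).natAbs : ℕ) : ℤ) := by
        exact_mod_cast h1
      omega
  have hEsp : ⊤ ≤ Submodule.span K (Set.range E) := by
    intro v _
    obtain ⟨N, hN⟩ := hscale v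
    obtain ⟨c, -, hc⟩ := hframe.2 _ hN
    have h1 : v = (π ^ N)⁻¹ • (π ^ N • v) := by
      rw [smul_smul, inv_mul_cancel₀ (pow_ne_zero _ hπ0), one_smul]
    rw [h1, hc]
    exact Submodule.smul_mem _ _ (Submodule.sum_mem _ fun j _ =>
      Submodule.smul_mem _ _ (Submodule.subset_span ⟨j, rfl⟩))
  have hEli : LinearIndependent K E := by
    refine linearIndependent_of_top_le_span_of_card_eq_finrank hEsp ?_
    rw [Module.finrank_eq_card_basis bas]
  refine ⟨E, ⟨hEli, fun j => ?_⟩, hframe, fun t D hDt hD => ?_⟩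
  · have h1 := bas.sum_repr (E j)
    rw [← h1]
    refine Submodule.sum_mem _ fun l _ => ?_
    by_cases h : bas.repr (E j) l = 0
    · rw [h, zero_smul]
      exact Submodule.zero_mem _
    · refine Submodule.smul_mem _ _ ?_
      rw [hbas]
      exact Submodule.subset_span ⟨l, hke l j (hEkey j l h), rfl⟩
  · obtain ⟨c, hc1, hc2, hc3⟩ := hexp _ (Finset.univ.filter fun l => e l ≤ t) rfl
      (fun l hl l' hl' => by
        rw [Finset.mem_filter] at hl ⊢
        exact ⟨Finset.mem_univ _, (hke _ _ hl').trans hl.2⟩) D hD (fun l hl => by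
        rw [Finset.mem_filter]
        refine ⟨Finset.mem_univ _, ?_⟩
        by_contra hlt
        apply hl
        have h1 : (mem b e t : Submodule K V) ≤ LinearMap.ker (bas.coord l) := by
          rw [mem, Submodule.span_le]
          rintro _ ⟨j, hj, rfl⟩
          rw [SetLike.mem_coe, LinearMap.mem_ker, Basis.coord_apply, ← hbas, Basis.repr_self,
            Finsupp.single_apply, if_neg]
          rintro rfl
          exact hlt hj
        have h2 := h1 hDt
        rwa [LinearMap.mem_ker, Basis.coord_apply] at h2)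
    exact ⟨c, hc1, fun i hi => (Finset.mem_filter.1 (hc2 i hi)).2, hc3⟩

end lattice

end Pool.Agent.Helper91.FD
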