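import Pool.Agent.Helper91.FD.Pure

/-!
Brackets: spaces without pure tensors.
-/

set_option autoImplicit false
set_option linter.unusedSectionVars false

namespace Pool.Agent.Helper91.FD

open Module FF Pool.Agent.W602.GT Pool.Agent.W603.LV Pool.Agent.TH143.GT Pool.Agent.Y220.OG
  Pool.Agent.Helper12.BL Pool.Agent.Helper91.HM Pool.Agent.Helper91.HM.Tw

variable {K : Type} [Field K] [Algebra ℂ K] {n : ℕ}

/-- the distribution which is generated by the brackets -/
def brk (U : Submodule K (Derivation ℂ K K)) : Submodule K (Derivation ℂ K K) :=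
  U ⊔ Submodule.span K {D | ∃ x ∈ U, ∃ y ∈ U, D = ⁅x, y⁆}

theorem derReg_brk {P : Place ℂ K} {D D' : Derivation ℂ K K} (hD : DerReg P D)
    (hD' : DerReg P D') : DerReg P ⁅D, D'⁆ := by
  intro f hf
  rw [Derivation.commutator_apply, sub_eq_add_neg]
  exact P.reg_add (hD _ (hD' _ hf)) (P.reg_neg (hD' _ (hD _ hf)))

theorem derReg_of_log {P : Place ℂ K} {D : Derivation ℂ K K} (hD : DerLog P D) : DerReg P D := by
  intro f hf
  by_cases h : f = 0
  · rw [h, map_zero]
    exact P.reg_zero
  · have h1 := P.reg_mul (hD f) hf
    rwa [div_mul_cancel₀ _ h] at h1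

theorem derLog_brk {P : Place ℂ K} {D D' : Derivation ℂ K K} (hD : DerLog P D)
    (hD' : DerLog P D') : DerLog P ⁅D, D'⁆ := by
  intro f
  by_cases h : f = 0
  · rw [h, div_zero]
    exact P.reg_zero
  · have h1 : D f = (D f / f) * f := (div_mul_cancel₀ _ h).symm
    have h2 : D' f = (D' f / f) * f := (div_mul_cancel₀ _ h).symm
    have h3 : ⁅D, D'⁆ f / f = D (D' f / f) - D' (D f / f) := by
      rw [Derivation.commutator_apply]
      conv_lhs => rw [h2, h1, Derivation.leibniz, Derivation.leibniz]
      simp only [smul_eq_mul]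
      field_simp
      ring
    rw [h3, sub_eq_add_neg]
    exact P.reg_add (derReg_of_log hD _ (hD' f)) (P.reg_neg (derReg_of_log hD' _ (hD f)))

/-- mixed tensors -/
def Mix (n : ℕ) (X : Set (Place ℂ K)) (d : Place ℂ K → ℝ) {J : Type} [Fintype J] [DecidableEq J]
    (E : J → Submodule K (Derivation ℂ K K)) (t : (J → Derivation ℂ K K) → K) : Prop :=
  (∀ x, (∀ j, x j ∈ E j) → ∀ j, ∀ y ∈ E j, ∀ z ∈ E j, ∀ c : K,
    t (Function.update x j (c • y + z)) = c * t (Function.update x j y) +
      t (Function.update x j z)) ∧
  ∀ P ∈ X, Divisorial n P → ∀ x, (∀ j, x j ∈ E j) → (∀ j, DerReg P (x j)) →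
    Gr P (-((Nat.card {j : J // ¬ DerLog P (x j)} : ℝ) * d P)) (t x)

/-- movable mixed tensors -/
def MixMov (n : ℕ) (X : Set (Place ℂ K)) (d : Place ℂ K → ℝ) (κ : ℕ) {J : Type} [Fintype J]
    [DecidableEq J] (E : J → Submodule K (Derivation ℂ K K)) (t : (J → Derivation ℂ K K) → K) :
    Prop :=
  Mix n X d E t ∧ ∃ f : Fin κ → K, AlgebraicIndependent ℂ f ∧ ∀ i, Mix n X d E (fun x => f i * t x)

theorem Mix.mono {X : Set (Place ℂ K)} {d : Place ℂ K → ℝ} {J : Type} [Fintype J] [DecidableEq J]
    {E E' : J → Submodule K (Derivation ℂ K K)} {t : (J → Derivation ℂ K K) → K}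
    (h : Mix n X d E t) (hE : ∀ j, E' j ≤ E j) : Mix n X d E' t :=
  ⟨fun x hx j y hy z hz c => h.1 x (fun j => hE j (hx j)) j y (hE j hy) z (hE j hz) c,
    fun P hP hdiv x hx hr => h.2 P hP hdiv x (fun j => hE j (hx j)) hr⟩

theorem Mix.zero {X : Set (Place ℂ K)} {d : Place ℂ K → ℝ} {J : Type} [Fintype J] [DecidableEq J]
    {E : J → Submodule K (Derivation ℂ K K)} {t : (J → Derivation ℂ K K) → K}
    (h : Mix n X d E t) {x : J → Derivation ℂ K K} (hx : ∀ j, x j ∈ E j) (j : J) :
    t (Function.update x j 0) = 0 := by
  have h1 := h.1 x hx j (x j) (hx j) (x j) (hx j) (-1)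
  rw [neg_one_smul, neg_add_cancel, neg_one_mul, neg_add_cancel] at h1
  exact h1

section step

variable {X : Set (Place ℂ K)} {d : Place ℂ K → ℝ} {J : Type} [Fintype J] [DecidableEq J]

/-- the arguments with a bracket -/
def arg (j0 : J) (x : Option J → Derivation ℂ K K) : J → Derivation ℂ K K :=
  Function.update (fun j => x (some j)) j0 ⁅x none, x (some j0)⁆

theorem arg_none (j0 : J) (x : Option J → Derivation ℂ K K) (y : Derivation ℂ K K) :
    arg j0 (Function.update x none y) =
      Function.update (fun j => x (some j)) j0 ⁅y, x (some j0)⁆ := by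
  funext j
  by_cases h : j = j0
  · subst h
    rw [arg, Function.update_self, Function.update_self, Function.update_self,
      Function.update_of_ne (Option.some_ne_none _)]
  · rw [arg, Function.update_of_ne h, Function.update_of_ne h,
      Function.update_of_ne (Option.some_ne_none _)]

theorem arg_self (j0 : J) (x : Option J → Derivation ℂ K K) (y : Derivation ℂ K K) :
    arg j0 (Function.update x (some j0) y) =
      Function.update (fun j => x (some j)) j0 ⁅x none, y⁆ := by
  funext j
  by_cases h : j = j0
  · subst h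
    rw [arg, Function.update_self, Function.update_self, Function.update_self,
      Function.update_of_ne (Option.some_ne_none _).symm]
  · rw [arg, Function.update_of_ne h, Function.update_of_ne h,
      Function.update_of_ne fun h' => h (Option.some_injective _ h')]

theorem arg_ne {j0 j : J} (hj : j ≠ j0) (x : Option J → Derivation ℂ K K)
    (y : Derivation ℂ K K) :
    arg j0 (Function.update x (some j) y) = Function.update (arg j0 x) j y := by
  funext i
  by_cases h : i = j0
  · subst h
    rw [arg, Function.update_self, Function.update_of_ne (Ne.symm hj), arg, Function.update_self,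
      Function.update_of_ne (Option.some_ne_none _).symm,
      Function.update_of_ne fun h' => hj (Option.some_injective _ h').symm]
  · by_cases h2 : i = j
    · subst h2
      rw [arg, Function.update_of_ne h, Function.update_self, Function.update_self]
    · rw [arg, Function.update_of_ne h, Function.update_of_ne h2, arg, Function.update_of_ne h,
        Function.update_of_ne fun h' => h2 (Option.some_injective _ h')]

/-- the replacement of an argument by a bracket -/
theorem mix_step (hd : ∀ P ∈ X, 0 ≤ d P) {E : J → Submodule K (Derivation ℂ K K)}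
    {t : (J → Derivation ℂ K K) → K} (h : Mix n X d E t) {U : Submodule K (Derivation ℂ K K)}
    {j0 : J} (hU : U ≤ E j0) (hb : ∀ x ∈ U, ∀ y ∈ U, ⁅x, y⁆ ∈ E j0)
    (h0 : ∀ x, (∀ j, x j ∈ E j) → x j0 ∈ U → t x = 0) {E' : Option J → Submodule K
      (Derivation ℂ K K)} (h1 : E' none = U) (h2 : E' (some j0) = U)
    (h3 : ∀ j, j ≠ j0 → E' (some j) = E j) : Mix n X d E' (fun x => t (arg j0 x)) := by
  have hargE : ∀ x : Option J → Derivation ℂ K K, (∀ j, x j ∈ E' j) → ∀ j, arg j0 x j ∈ E j := by
    intro x hx j
    by_cases hj : j = j0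
    · subst hj
      rw [arg, Function.update_self]
      exact hb _ (h1 ▸ hx none) _ (h2 ▸ hx (some j))
    · rw [arg, Function.update_of_ne hj, ← h3 j hj]
      exact hx _
  refine ⟨fun x hx j y hy z hz c => ?_, fun P hP hdiv x hx hr => ?_⟩
  · have hx0 : x none ∈ U := h1 ▸ hx none
    have hx1 : x (some j0) ∈ U := h2 ▸ hx (some j0)
    have hxE : ∀ w ∈ E j0, ∀ i, Function.update (fun j => x (some j)) j0 w i ∈ E i := by
      intro w hw i
      by_cases hi : i = j0
      · subst hi
        rw [Function.update_self]
        exact hw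
      · rw [Function.update_of_ne hi, ← h3 i hi]
        exact hx _
    have hlin : ∀ w ∈ E j0, ∀ w' ∈ E j0, ∀ c : K,
        t (Function.update (fun j => x (some j)) j0 (c • w + w')) =
          c * t (Function.update (fun j => x (some j)) j0 w) +
            t (Function.update (fun j => x (some j)) j0 w') := by
      intro w hw w' hw' c
      have h4 := h.1 _ (hxE w hw) j0 w hw w' hw' c
      simpa only [Function.update_idem] using h4
    have hz0 : ∀ u ∈ U, t (Function.update (fun j => x (some j)) j0 u) = 0 := by
      intro u hu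
      refine h0 _ (hxE u (hU hu)) ?_
      rw [Function.update_self]
      exact hu
    rcases j with _ | j
    · rw [h1] at hy hz
      change t (arg j0 _) = c * t (arg j0 _) + t (arg j0 _)
      rw [arg_none, arg_none, arg_none]
      have h5 : ⁅c • y + z, x (some j0)⁆ = (1 : K) • (c • ⁅y, x (some j0)⁆ +
          ⁅z, x (some j0)⁆) + (-(x (some j0) c)) • y := by
        ext f
        simp only [Derivation.commutator_apply, Derivation.add_apply, Derivation.smul_apply,
          smul_eq_mul, map_add, Derivation.leibniz]
        ring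
      rw [h5, hlin _ (Submodule.add_mem _ (Submodule.smul_mem _ _ (hb y hy _ hx1))
        (hb z hz _ hx1)) _ (Submodule.smul_mem _ _ (hU hy)), one_mul,
        hz0 _ (Submodule.smul_mem _ _ hy), add_zero, hlin _ (hb y hy _ hx1) _ (hb z hz _ hx1)]
    · by_cases hj : j = j0
      · subst hj
        rw [h2] at hy hz
        change t (arg j _) = c * t (arg j _) + t (arg j _)
        rw [arg_self, arg_self, arg_self]
        have h5 : ⁅x none, c • y + z⁆ = (1 : K) • (c • ⁅x none, y⁆ +
            ⁅x none, z⁆) + (x none c) • y := by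
          ext f
          simp only [Derivation.commutator_apply, Derivation.add_apply, Derivation.smul_apply,
            smul_eq_mul, map_add, Derivation.leibniz]
          ring
        rw [h5, hlin _ (Submodule.add_mem _ (Submodule.smul_mem _ _ (hb _ hx0 y hy))
          (hb _ hx0 z hz)) _ (Submodule.smul_mem _ _ (hU hy)), one_mul,
          hz0 _ (Submodule.smul_mem _ _ hy), add_zero, hlin _ (hb _ hx0 y hy) _ (hb _ hx0 z hz)]
      · rw [h3 j hj] at hy hz
        change t (arg j0 _) = c * t (arg j0 _) + t (arg j0 _)
        rw [arg_ne hj, arg_ne hj, arg_ne hj]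
        exact h.1 _ (hargE x hx) j y hy z hz c
  · have hreg : ∀ j, DerReg P (arg j0 x j) := by
      intro j
      by_cases hj : j = j0
      · subst hj
        rw [arg, Function.update_self]
        exact derReg_brk (hr _) (hr _)
      · rw [arg, Function.update_of_ne hj]
        exact hr _
    refine Gr.mono ?_ (h.2 P hP hdiv _ (hargE x hx) hreg)
    rw [neg_le_neg_iff]
    refine mul_le_mul_of_nonneg_right ?_ (hd P hP)
    have h4 : ∀ j : {j : J // ¬ DerLog P (arg j0 x j)}, ∃ i : {i : Option J // ¬ DerLog P (x i)},
        i.1 = some j.1 ∨ (i.1 = none ∧ j.1 = j0) := by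
      rintro ⟨j, hj⟩
      by_cases hjj : j = j0
      · subst hjj
        by_cases hlog : DerLog P (x none)
        · refine ⟨⟨some j, fun hlog' => hj ?_⟩, Or.inl rfl⟩
          rw [arg, Function.update_self]
          exact derLog_brk hlog hlog'
        · exact ⟨⟨none, hlog⟩, Or.inr ⟨rfl, rfl⟩⟩
      · refine ⟨⟨some j, fun hlog => hj ?_⟩, Or.inl rfl⟩
        rw [arg, Function.update_of_ne hjj]
        exact hlog
    choose F hF using h4
    have h5 : Nat.card {j : J // ¬ DerLog P (arg j0 x j)} ≤
        Nat.card {i : Option J // ¬ DerLog P (x i)} := by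
      refine Nat.card_le_card_of_injective F fun j j' hjj => ?_
      apply Subtype.ext
      have h6 := hF j
      have h7 := hF j'
      rw [hjj] at h6
      rcases h6 with h6 | h6 <;> rcases h7 with h7 | h7
      · exact Option.some_injective _ (h6.symm.trans h7)
      · rw [h7.1] at h6
        exact absurd h6 (Option.some_ne_none _).symm
      · rw [h6.1] at h7
        exact absurd h7 (Option.some_ne_none _).symm
      · rw [h6.2, h7.2]
    exact_mod_cast h5

end step

/-- mixed tensors vanish -/
theorem mix_zero {X : Set (Place ℂ K)} {d : Place ℂ K → ℝ} (hd : ∀ P ∈ X, 0 ≤ d P) {κ : ℕ}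
    {U W : Submodule K (Derivation ℂ K K)} (hUW : U ≤ W) (hW : W = brk U)
    (hbase : ∀ (J : Type) [Fintype J] [DecidableEq J], Nonempty J →
      ∀ t : (J → Derivation ℂ K K) → K, MixMov n X d κ (fun _ => U) t →
        ∀ x, (∀ j, x j ∈ U) → t x = 0) (m : ℕ) :
    ∀ (J : Type) [Fintype J] [DecidableEq J], Nonempty J → ∀ S : Finset J, Sᶜ.card = m →
      ∀ t : (J → Derivation ℂ K K) → K, MixMov n X d κ (fun j => if j ∈ S then U else W) t →
        ∀ x, (∀ j, x j ∈ (if j ∈ S then U else W)) → t x = 0 := by
  induction m with
  | zero =>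
    intro J _ _ hJ S hS t ht x hx
    rw [Finset.card_eq_zero, Finset.compl_eq_empty_iff] at hS
    subst hS
    simp only [Finset.mem_univ, if_true] at ht hx
    exact hbase J hJ t ht x hx
  | succ m ih =>
    intro J _ _ hJ S hS t ht
    obtain ⟨j0, hj0⟩ : ∃ j0, j0 ∈ Sᶜ := by
      rw [← Finset.Nonempty, ← Finset.card_pos, hS]
      exact Nat.succ_pos m
    have hj0' : j0 ∉ S := Finset.mem_compl.1 hj0
    obtain ⟨ht0, f, hf, hft⟩ := ht
    obtain ⟨E, hE⟩ : ∃ E : J → Submodule K (Derivation ℂ K K),
      E = fun j => if j ∈ S then U else W := ⟨_, rfl⟩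
    have hEj : ∀ j, E j = if j ∈ S then U else W := fun j => by rw [hE]
    rw [← hE] at ht0
    simp only [← hE] at hft
    have hEj0 : E j0 = W := by rw [hEj, if_neg hj0']
    -- the restriction
    have hres : ∀ j, (if j ∈ insert j0 S then U else W) ≤ E j := by
      intro j
      rw [hEj]
      by_cases h1 : j ∈ S
      · rw [if_pos h1, if_pos (Finset.mem_insert_of_mem h1)]
      · by_cases h2 : j ∈ insert j0 S
        · rw [if_pos h2, if_neg h1]
          exact hUW
        · rw [if_neg h1, if_neg h2]
    have hcard : (insert j0 S)ᶜ.card = m := by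
      have h1 := Finset.card_compl_add_card S
      have h2 := Finset.card_compl_add_card (insert j0 S)
      rw [Finset.card_insert_of_notMem hj0'] at h2
      omega
    have h0 : ∀ x, (∀ j, x j ∈ E j) → x j0 ∈ U → t x = 0 := by
      intro x hx hxU
      refine ih J hJ (insert j0 S) hcard t ⟨ht0.mono hres, f, hf, fun i => (hft i).mono hres⟩ x
        fun j => ?_
      by_cases h1 : j = j0
      · subst h1
        rw [if_pos (Finset.mem_insert_self _ _)]
        exact hxU
      · have h2 := hx j
        rw [hEj] at h2
        by_cases h3 : j ∈ S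
        · rw [if_pos h3] at h2
          rw [if_pos (Finset.mem_insert_of_mem h3)]
          exact h2
        · rw [if_neg h3] at h2
          rw [if_neg fun h4 => (Finset.mem_insert.1 h4).elim h1 h3]
          exact h2
    -- the brackets
    have hb : ∀ x ∈ U, ∀ y ∈ U, ⁅x, y⁆ ∈ E j0 := by
      intro x hx y hy
      rw [hEj0, hW]
      exact Submodule.mem_sup_right (Submodule.subset_span ⟨x, hx, y, hy, rfl⟩)
    obtain ⟨S', hS'⟩ : ∃ S' : Finset (Option J), ∀ i, i ∈ S' ↔ (i = none ∨ ∃ j ∈ insert j0 S,
        i = some j) := ⟨insert none ((insert j0 S).map Function.Embedding.some), fun i => by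
      rw [Finset.mem_insert, Finset.mem_map]
      constructor
      · rintro (h | ⟨j, hj, rfl⟩)
        · exact Or.inl h
        · exact Or.inr ⟨j, hj, rfl⟩
      · rintro (h | ⟨j, hj, rfl⟩)
        · exact Or.inl h
        · exact Or.inr ⟨j, hj, rfl⟩⟩
    have hS'c : S'ᶜ = ((insert j0 S)ᶜ).map Function.Embedding.some := by
      ext i
      rw [Finset.mem_compl, hS', Finset.mem_map]
      constructor
      · intro h
        rcases i with _ | j
        · exact absurd (Or.inl rfl) h
        · refine ⟨j, ?_, rfl⟩
          rw [Finset.mem_compl]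
          intro hj
          exact h (Or.inr ⟨j, hj, rfl⟩)
      · rintro ⟨j, hj, rfl⟩ h
        rcases h with h | ⟨j', hj', h⟩
        · exact Option.some_ne_none _ h
        · rw [Finset.mem_compl] at hj
          apply hj
          rwa [Option.some_injective _ h]
    have hcard' : S'ᶜ.card = m := by rw [hS'c, Finset.card_map, hcard]
    have hmemS : ∀ j, (some j ∈ S') ↔ j ∈ insert j0 S := by
      intro j
      rw [hS']
      constructor
      · rintro (h | ⟨j', hj', h⟩)
        · exact absurd h (Option.some_ne_none _)
        · rwa [Option.some_injective _ h]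
      · intro h
        exact Or.inr ⟨j, h, rfl⟩
    have hnone : (none : Option J) ∈ S' := (hS' _).2 (Or.inl rfl)
    have hstep : ∀ u : (J → Derivation ℂ K K) → K, Mix n X d E u →
        (∀ x, (∀ j, x j ∈ E j) → x j0 ∈ U → u x = 0) →
          Mix n X d (fun i => if i ∈ S' then U else W) (fun x => u (arg j0 x)) := by
      intro u hu hu0
      refine mix_step hd hu (U := U) (by rw [hEj0]; exact hUW) hb hu0 (if_pos hnone)
        (if_pos ((hmemS j0).2 (Finset.mem_insert_self _ _))) fun j hj => ?_
      rw [hEj]
      by_cases h1 : j ∈ S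
      · rw [if_pos h1, if_pos ((hmemS j).2 (Finset.mem_insert_of_mem h1))]
      · rw [if_neg h1, if_neg fun h2 => (Finset.mem_insert.1 ((hmemS j).1 h2)).elim hj h1]
    have hmov : MixMov n X d κ (fun i => if i ∈ S' then U else W) (fun x => t (arg j0 x)) :=
      ⟨hstep t ht0 h0, f, hf, fun i => hstep (fun x => f i * t x) (hft i) fun x hx hxU => by
        rw [h0 x hx hxU, mul_zero]⟩
    have hz := ih (Option J) ⟨none⟩ S' hcard' _ hmov
    -- the end
    intro x hx
    have hx' : ∀ j, x j ∈ E j := fun j => by rw [hEj]; exact hx j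
    have hupd : ∀ w ∈ W, ∀ i, Function.update x j0 w i ∈ E i := by
      intro w hw i
      by_cases hi : i = j0
      · subst hi
        rw [Function.update_self, hEj0]
        exact hw
      · rw [Function.update_of_ne hi]
        exact hx' i
    have hlin : ∀ w ∈ W, ∀ w' ∈ W, ∀ c : K, t (Function.update x j0 (c • w + w')) =
        c * t (Function.update x j0 w) + t (Function.update x j0 w') := fun w hw w' hw' c =>
      ht0.1 x hx' j0 w (by rw [hEj0]; exact hw) w' (by rw [hEj0]; exact hw') c
    let Z : Submodule K (Derivation ℂ K K) :=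
      { carrier := {w | w ∈ W ∧ t (Function.update x j0 w) = 0}
        add_mem' := by
          rintro w w' ⟨h1, h2⟩ ⟨h3, h4⟩
          refine ⟨Submodule.add_mem _ h1 h3, ?_⟩
          have h5 := hlin w h1 w' h3 1
          rw [one_smul, h2, h4, mul_zero, add_zero] at h5
          exact h5
        zero_mem' := ⟨Submodule.zero_mem _, ht0.zero hx' j0⟩
        smul_mem' := by
          rintro c w ⟨h1, h2⟩
          refine ⟨Submodule.smul_mem _ _ h1, ?_⟩
          have h5 := hlin w h1 0 (Submodule.zero_mem _) c
          rw [add_zero, h2, mul_zero, zero_add, ht0.zero hx' j0] at h5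
          exact h5 }
    have hZ : W ≤ Z := by
      rw [hW]
      refine sup_le (fun u hu => ⟨hUW hu, ?_⟩) (Submodule.span_le.2 ?_)
      · refine h0 _ (hupd u (hUW hu)) ?_
        rw [Function.update_self]
        exact hu
      · rintro _ ⟨y, hy, z, hz', rfl⟩
        have hyz : ⁅y, z⁆ ∈ W := by
          have := hb y hy z hz'
          rwa [hEj0] at this
        refine ⟨hyz, ?_⟩
        obtain ⟨x', hx'1⟩ : ∃ x' : Option J → Derivation ℂ K K,
            x' = fun i => Option.elim i y (fun j => if j = j0 then z else x j) := ⟨_, rfl⟩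
        have h1 : arg j0 x' = Function.update x j0 ⁅y, z⁆ := by
          funext j
          by_cases h : j = j0
          · subst h
            rw [arg, Function.update_self, Function.update_self, hx'1]
            simp
          · rw [arg, Function.update_of_ne h, Function.update_of_ne h, hx'1]
            simp [h]
        rw [← h1]
        refine hz x' fun i => ?_
        rcases i with _ | j
        · rw [if_pos hnone, hx'1]
          exact hy
        · rw [hx'1]
          change (if j = j0 then z else x j) ∈ _
          by_cases h : j = j0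
          · subst h
            rw [if_pos rfl, if_pos ((hmemS j).2 (Finset.mem_insert_self _ _))]
            exact hz'
          · rw [if_neg h]
            have h2 := hx j
            by_cases h3 : j ∈ S
            · rw [if_pos h3] at h2
              rw [if_pos ((hmemS j).2 (Finset.mem_insert_of_mem h3))]
              exact h2
            · rw [if_neg h3] at h2
              rw [if_neg fun h4 => (Finset.mem_insert.1 ((hmemS j).1 h4)).elim h h3]
              exact h2
    have h5 : x j0 ∈ W := by
      have := hx' j0
      rwa [hEj0] at this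
    have h6 := (hZ h5).2
    rwa [Function.update_eq_self] at h6

/-- If `U` has no pure tensors then `U + [U, U]` has none. -/
theorem noPure_brk {X : Set (Place ℂ K)} {δ : Place ℂ K → ℝ} (hδ : ∀ P ∈ X, 0 ≤ δ P) {κ : ℕ}
    {U : Submodule K (Derivation ℂ K K)} (h : NoPure n X δ U.subtype κ) :
    NoPure n X δ (brk U).subtype κ := by
  classical
  have hUW : U ≤ brk U := le_sup_left
  have hd : ∀ P ∈ X, 0 ≤ dl δ (brk U).subtype P := fun P hP => dl_nonneg (hδ P hP)
  have hdd : ∀ P, ¬ VInv U.subtype P → dl δ (brk U).subtype P = dl δ U.subtype P := by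
    intro P hP
    rw [dl, dl, if_neg hP, if_neg]
    intro h1
    exact hP fun v hv => h1 ⟨v.1, hUW v.2⟩ hv
  have hbase : ∀ (J : Type) [Fintype J] [DecidableEq J], Nonempty J →
      ∀ t : (J → Derivation ℂ K K) → K,
        MixMov n X (dl δ (brk U).subtype) κ (fun _ => U) t → ∀ x, (∀ j, x j ∈ U) → t x = 0 := by
    intro J _ _ hJ t ht x hx
    obtain ⟨M, hM⟩ : ∃ M, M = Fintype.card J := ⟨_, rfl⟩
    have hM0 : 0 < M := hM ▸ Fintype.card_pos
    obtain ⟨e⟩ : Nonempty (J ≃ Fin M) := ⟨(Fintype.equivFin J).trans (finCongr hM.symm)⟩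
    have hmk : ∀ u : (J → Derivation ℂ K K) → K, Mix n X (dl δ (brk U).subtype) (fun _ => U) u →
        ∃ T : MultilinearMap K (fun _ : Fin M => U) K, (∀ y : Fin M → U,
          T y = u (fun j => (y (e j) : Derivation ℂ K K))) ∧ IsPure n X δ U.subtype T := by
      intro u hu
      have hupd : ∀ (inst : DecidableEq (Fin M)) (y : Fin M → U) (k : Fin M) (v : U),
          (fun j => ((@Function.update _ _ inst y k v (e j) : U) : Derivation ℂ K K)) =
            Function.update (fun j => (y (e j) : Derivation ℂ K K)) (e.symm k)
              (v : Derivation ℂ K K) := by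
        intro inst y k v
        funext j
        by_cases hj : j = e.symm k
        · subst hj
          rw [Function.update_self, Equiv.apply_symm_apply, Function.update_self]
        · rw [Function.update_of_ne hj, Function.update_of_ne]
          intro h'
          apply hj
          rw [← h', Equiv.symm_apply_apply]
      refine ⟨{ toFun := fun y => u (fun j => (y (e j) : Derivation ℂ K K))
                map_update_add' := ?_
                map_update_smul' := ?_ }, fun y => rfl, fun P hP hdiv y hy => ?_⟩
      · intro inst y k v w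
        rw [hupd, hupd, hupd]
        have h1 := hu.1 (fun j => (y (e j) : Derivation ℂ K K)) (fun j => (y (e j)).2)
          (e.symm k) v v.2 w w.2 1
        rw [one_smul, one_mul] at h1
        exact h1
      · intro inst y k c v
        rw [hupd, hupd]
        have h1 := hu.1 (fun j => (y (e j) : Derivation ℂ K K)) (fun j => (y (e j)).2)
          (e.symm k) v v.2 0 (Submodule.zero_mem _) c
        rw [add_zero, Mix.zero hu (fun j => (y (e j)).2), add_zero] at h1
        exact h1
      · have h1 := hu.2 P hP hdiv (fun j => (y (e j) : Derivation ℂ K K))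
          (fun j => (y (e j)).2) (fun j => hy (e j))
        change Gr P _ (u (fun j => (y (e j) : Derivation ℂ K K)))
        have h2 : Nat.card {k : Fin M // ¬ VLog U.subtype P (y k)} =
            Nat.card {j : J // ¬ DerLog P (y (e j) : Derivation ℂ K K)} := by
          refine Nat.card_congr ((Equiv.subtypeEquiv e fun j => ?_).symm)
          exact Iff.rfl
        by_cases hP' : VInv U.subtype P
        · have h3 : Nat.card {j : J // ¬ DerLog P (y (e j) : Derivation ℂ K K)} = 0 := by
            rw [Nat.card_eq_zero]
            exact Or.inl ⟨fun j => j.2 (hP' _ (hy _))⟩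
          rw [h3, Nat.cast_zero, zero_mul, neg_zero] at h1
          rw [h2, h3, Nat.cast_zero, zero_mul, neg_zero]
          exact h1
        · rw [hdd P hP'] at h1
          rw [h2]
          exact h1
    obtain ⟨ht0, f, hf, hft⟩ := ht
    obtain ⟨T, hT, hTp⟩ := hmk t ht0
    have h1 := h M hM0 T ⟨hTp, f, hf, fun i => ?_⟩
    · have h2 := hT fun k => ⟨x (e.symm k), hx _⟩
      rw [h1] at h2
      simp only [Equiv.symm_apply_apply] at h2
      exact h2.symm
    · obtain ⟨T', hT', hTp'⟩ := hmk _ (hft i)
      have h2 : f i • T = T' := by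
        ext y
        rw [smul_apply, hT, hT', smul_eq_mul]
      rw [h2]
      exact hTp'
  intro M hM t ht
  obtain ⟨T, hT⟩ : ∃ T : (Fin M → Derivation ℂ K K) → K, ∀ (y : Fin M → Derivation ℂ K K)
      (hy : ∀ j, y j ∈ brk U), T y = t fun j => ⟨y j, hy j⟩ :=
    ⟨fun y => if hy : ∀ j, y j ∈ brk U then t fun j => ⟨y j, hy j⟩ else 0, fun y hy => dif_pos hy⟩
  have hconv : ∀ c : K, IsPure n X δ (brk U).subtype (c • t) →
      Mix n X (dl δ (brk U).subtype) (fun _ : Fin M => brk U) (fun y => c * T y) := by
    intro c hc
    refine ⟨fun x hx j y hy z hz a => ?_, fun P hP hdiv x hx hr => ?_⟩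
    · have hupd : ∀ v ∈ brk U, ∀ i, Function.update x j v i ∈ brk U := by
        intro v hv i
        by_cases hi : i = j
        · subst hi
          rw [Function.update_self]
          exact hv
        · rw [Function.update_of_ne hi]
          exact hx i
      have hT' : ∀ v (hv : v ∈ brk U), T (Function.update x j v) =
          t (Function.update (fun i => (⟨x i, hx i⟩ : brk U)) j ⟨v, hv⟩) := by
        intro v hv
        rw [hT _ (hupd v hv)]
        congr 1
        funext i
        apply Subtype.ext
        change Function.update x j v i =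
          ((Function.update (fun i => (⟨x i, hx i⟩ : brk U)) j ⟨v, hv⟩ i : brk U) :
            Derivation ℂ K K)
        by_cases hi : i = j
        · subst hi
          rw [Function.update_self, Function.update_self]
        · rw [Function.update_of_ne hi, Function.update_of_ne hi]
      change c * T _ = a * (c * T _) + c * T _
      rw [hT' _ (Submodule.add_mem _ (Submodule.smul_mem _ _ hy) hz), hT' _ hy, hT' _ hz]
      have h1 : (⟨a • y + z, Submodule.add_mem _ (Submodule.smul_mem _ _ hy) hz⟩ : brk U) =
          a • ⟨y, hy⟩ + ⟨z, hz⟩ := rfl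
      rw [h1, t.map_update_add, t.map_update_smul, smul_eq_mul]
      ring
    · change Gr P _ (c * T x)
      rw [hT x hx]
      exact hc P hP hdiv (fun j => ⟨x j, hx j⟩) hr
  obtain ⟨ht0, f, hf, hft⟩ := ht
  have hmix : MixMov n X (dl δ (brk U).subtype) κ
      (fun j : Fin M => if j ∈ (∅ : Finset (Fin M)) then U else brk U) T := by
    simp only [Finset.notMem_empty, if_false]
    refine ⟨?_, f, hf, fun i => hconv _ (hft i)⟩
    have h1 := hconv 1 (by rw [one_smul]; exact ht0)
    simpa only [one_mul] using h1
  ext y
  have h1 := mix_zero hd hUW rfl hbase _ (Fin M) ⟨⟨0, hM⟩⟩ ∅ rfl T hmix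
    (fun j => (y j : Derivation ℂ K K)) (fun j => by
      rw [if_neg (Finset.notMem_empty j)]
      exact (y j).2)
  rw [hT _ fun j => (y j).2] at h1
  exact h1

end Pool.Agent.Helper91.FD
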