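import Pool.Agent.Helper91.HM.TwDef

/-!
Orbifold tensor differentials on distributions and foliations.
-/

set_option autoImplicit false

namespace Pool.Agent.Helper91.Fol

open Module FF Pool.Agent.W602.GT

variable {K : Type} [Field K] [Algebra ℂ K]

/-- The distribution `U` (a `K`-subspace of the rational vector fields) is a foliation: it is closed
under Lie brackets. -/
def Involutive (U : Submodule K (Derivation ℂ K K)) : Prop :=
  ∀ D ∈ U, ∀ D' ∈ U, ⁅D, D'⁆ ∈ U

/-- The distribution `U` is invariant under all automorphisms `φ` of the field `K` (possibly acting on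
the constants) which preserve the pair `(X, Δ)`: if `D` lies in `U` then `φ ∘ D ∘ φ⁻¹` lies in `U`. -/
def AutInvariant (X : Set (Place ℂ K)) (δ : Place ℂ K → ℝ) (U : Submodule K (Derivation ℂ K K)) :
    Prop :=
  ∀ φ : K ≃+* K, Helper91.HM.Tw.Preserves X δ φ → ∀ D ∈ U, ∀ D' : Derivation ℂ K K,
    (∀ f, D' (φ f) = φ (D f)) → D' ∈ U

/-- The prime divisor `P` is invariant under the distribution `U`: each vector field in `U` which is
regular at `P` is tangent to `P`, that is, logarithmic at `P`. -/
def DivInvariant (U : Submodule K (Derivation ℂ K K)) (P : Place ℂ K) : Prop :=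
  ∀ D ∈ U, DerReg P D → DerLog P D

open Classical in
/-- The coefficient at `P` of the divisor `Δ_U`, which is the part of `Δ` whose prime divisors are not
invariant under `U`. -/
noncomputable def coeffOn (δ : Place ℂ K → ℝ) (U : Submodule K (Derivation ℂ K K))
    (P : Place ℂ K) : ℝ :=
  if DivInvariant U P then 0 else δ P

/-- The vector fields `B i` are a basis, over the valuation ring of `P`, of the vector fields in the
distribution `U` which are regular at `P`. -/
def FrameOn (U : Submodule K (Derivation ℂ K K)) (P : Place ℂ K)
    (B : Fin (finrank K U) → Derivation ℂ K K) : Prop :=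
  (∀ i, B i ∈ U ∧ DerReg P (B i)) ∧ ∀ D ∈ U, DerReg P D →
    ∃ c : Fin (finrank K U) → K, (∀ i, P.Reg (c i)) ∧ D = ∑ i, c i • B i

/-- `s` is an orbifold tensor differential of degree `N` on the distribution `U` with values in
`a (K_U + Δ_U)`, where `a` is an integer and `Δ_U` is the part of `Δ` whose prime divisors are not
invariant under `U`: for each `K`-basis `B` of `U` (which is used to trivialize the canonical bundle)
a `K`-multilinear function `s B` of `N` vector fields in `U` (only its values on `U` matter), no
symmetry being required, which is multiplied by `det A ^ a` if `B` is replaced by its linear transform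
under the matrix `A`, such that, for each prime divisor `P` of `X` and each basis `B` of the vector
fields in `U` which are regular at `P`, the value of `s B` on vector fields in `U` which are regular at
`P` and of which `q` are not logarithmic at `P` has a pole of order at most `q + a` times the
coefficient of `Δ_U` at `P`. -/
def TensorOn (n : ℕ) (X : Set (Place ℂ K)) (δ : Place ℂ K → ℝ) (U : Submodule K (Derivation ℂ K K))
    {N : ℕ} (a : ℤ) (s : (Fin (finrank K U) → Derivation ℂ K K) →
      MultilinearMap K (fun _ : Fin N => Derivation ℂ K K) K) : Prop :=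
  (∀ (A : Matrix (Fin (finrank K U)) (Fin (finrank K U)) K) (B : Fin (finrank K U) →
    Derivation ℂ K K), LinearIndependent K B → (∀ i, B i ∈ U) → A.det ≠ 0 →
      ∀ D : Fin N → Derivation ℂ K K, (∀ j, D j ∈ U) →
        s (fun i => ∑ j, A i j • B j) D = A.det ^ a * s B D) ∧
  ∀ P ∈ X, Divisorial n P → ∀ B, FrameOn U P B → ∀ D : Fin N → Derivation ℂ K K,
    (∀ j, D j ∈ U ∧ DerReg P (D j)) → s B D = 0 ∨
      -(((Nat.card {j : Fin N // ¬ DerLog P (D j)} : ℝ) + a) * coeffOn δ U P) ≤
        (P.ord (s B D) : ℝ)

/-- The Iitaka dimension of the orbifold tensor differential `s` on `U` is at least `κ`: there are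
algebraically independent functions `f 1, ..., f κ` such that `s, f 1 s, ..., f κ s` are orbifold
tensor differentials on `U` with values in `a (K_U + Δ_U)`. -/
def MovableOn (n : ℕ) (X : Set (Place ℂ K)) (δ : Place ℂ K → ℝ) (U : Submodule K (Derivation ℂ K K))
    (κ : ℕ) {N : ℕ} (a : ℤ) (s : (Fin (finrank K U) → Derivation ℂ K K) →
      MultilinearMap K (fun _ : Fin N => Derivation ℂ K K) K) : Prop :=
  TensorOn n X δ U a s ∧ ∃ f : Fin κ → K, AlgebraicIndependent ℂ f ∧
    ∀ j, TensorOn n X δ U a (fun B => f j • s B)

/-- Each orbifold tensor differential of degree `N` on `U` with values in `a (K_U + Δ_U)` and of Iitaka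
dimension at least `κ` is zero. For `κ = 0` all tensors are zero. -/
def NoTensors (n : ℕ) (X : Set (Place ℂ K)) (δ : Place ℂ K → ℝ) (U : Submodule K (Derivation ℂ K K))
    (κ N : ℕ) (a : ℤ) : Prop :=
  ∀ s : (Fin (finrank K U) → Derivation ℂ K K) →
    MultilinearMap K (fun _ : Fin N => Derivation ℂ K K) K, MovableOn n X δ U κ a s →
      ∀ B, LinearIndependent K B → (∀ i, B i ∈ U) → ∀ D : Fin N → Derivation ℂ K K,
        (∀ j, D j ∈ U) → s B D = 0

end Pool.Agent.Helper91.Fol
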