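import Pool.Agent.Helper91.FD.Fol
import Pool.Agent.Helper91.FD.FolDef

/-!
The main theorem in terms of the definitions of `FolDef`.
-/

set_option autoImplicit false
set_option linter.unusedSectionVars false

namespace Pool.Agent.Helper91.FD

open Module FF Pool.Agent.W602.GT Pool.Agent.W603.LV Pool.Agent.TH143.GT Pool.Agent.Y220.OG
  Pool.Agent.Helper12.BL Pool.Agent.Helper91.HM Pool.Agent.Helper91.HM.Tw

variable {K : Type} [Field K] [Algebra ℂ K] {n : ℕ}

theorem dl_eq (δ : Place ℂ K → ℝ) (U : Submodule K (Derivation ℂ K K)) (P : Place ℂ K) :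
    dl δ U.subtype P = Fol.coeffOn δ U P := by
  have h1 : VInv U.subtype P ↔ Fol.DivInvariant U P :=
    ⟨fun h D hD hr => h ⟨D, hD⟩ hr, fun h v hv => h v v.2 hv⟩
  by_cases hP : VInv U.subtype P
  · rw [dl, Fol.coeffOn, if_pos hP, if_pos (h1.1 hP)]
  · rw [dl, Fol.coeffOn, if_neg hP, if_neg fun h' => hP (h1.2 h')]

/-- the restriction of a family of multilinear maps -/
noncomputable def restr (U : Submodule K (Derivation ℂ K K)) {r N : ℕ}
    (s : (Fin r → Derivation ℂ K K) → MultilinearMap K (fun _ : Fin N => Derivation ℂ K K) K) :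
    (Fin r → U) → MultilinearMap K (fun _ : Fin N => U) K :=
  fun B => (s fun i => (B i : Derivation ℂ K K)).compLinearMap fun _ => U.subtype

theorem restr_apply (U : Submodule K (Derivation ℂ K K)) {r N : ℕ}
    (s : (Fin r → Derivation ℂ K K) → MultilinearMap K (fun _ : Fin N => Derivation ℂ K K) K)
    (B : Fin r → U) (D : Fin N → U) : restr U s B D =
      s (fun i => (B i : Derivation ℂ K K)) (fun j => (D j : Derivation ℂ K K)) := rfl

theorem li_coe {U : Submodule K (Derivation ℂ K K)} {r : ℕ} {B : Fin r → U}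
    (hB : LinearIndependent K B) : LinearIndependent K (fun i => (B i : Derivation ℂ K K)) :=
  hB.map' U.subtype (LinearMap.ker_eq_bot.2 (Submodule.subtype_injective U))

theorem isTen_of {X : Set (Place ℂ K)} {δ : Place ℂ K → ℝ} {U : Submodule K (Derivation ℂ K K)}
    {N : ℕ} {a : ℤ} {s : (Fin (finrank K U) → Derivation ℂ K K) →
      MultilinearMap K (fun _ : Fin N => Derivation ℂ K K) K} (h : Fol.TensorOn n X δ U a s) :
    IsTen n X δ U.subtype a (restr U s) := by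
  refine ⟨fun A B hB hA => ?_, fun P hP hdiv B hB D hD => ?_⟩
  · ext D
    rw [smul_apply, restr_apply, restr_apply, smul_eq_mul,
      ← h.1 A _ (li_coe hB) (fun i => (B i).2) hA _ fun j => (D j).2]
    congr 2
    funext i
    change U.subtype (∑ j, A i j • B j) = _
    rw [map_sum]
    rfl
  · rw [restr_apply, dl_eq]
    refine h.2 P hP hdiv _ ⟨fun i => ⟨(B i).2, hB.1 i⟩, fun E hE hEr => ?_⟩ _
      fun j => ⟨(D j).2, hD j⟩
    obtain ⟨c, hc, hcE⟩ := hB.2 ⟨E, hE⟩ hEr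
    refine ⟨c, hc, ?_⟩
    have h1 := congrArg U.subtype hcE
    rw [map_sum] at h1
    exact h1

theorem isMov_of {X : Set (Place ℂ K)} {δ : Place ℂ K → ℝ} {U : Submodule K (Derivation ℂ K K)}
    {N : ℕ} {a : ℤ} {κ : ℕ} {s : (Fin (finrank K U) → Derivation ℂ K K) →
      MultilinearMap K (fun _ : Fin N => Derivation ℂ K K) K}
    (h : Fol.MovableOn n X δ U κ a s) : IsMov n X δ U.subtype κ a (restr U s) := by
  obtain ⟨h1, f, hf, hfs⟩ := h
  exact ⟨isTen_of h1, f, hf, fun j => isTen_of (hfs j)⟩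

theorem noTensors_of {X : Set (Place ℂ K)} {δ : Place ℂ K → ℝ}
    {U : Submodule K (Derivation ℂ K K)} {N : ℕ} {a : ℤ} {κ : ℕ}
    (h : ∀ s : (Fin (finrank K U) → U) → MultilinearMap K (fun _ : Fin N => U) K,
      IsMov n X δ U.subtype κ a s → ∀ B, LinearIndependent K B → s B = 0) :
    Fol.NoTensors n X δ U κ N a := by
  intro s hs B hB hBU D hDU
  have h1 := h _ (isMov_of hs) (fun i => ⟨B i, hBU i⟩) (LinearIndependent.of_comp U.subtype hB)
  exact congrArg (fun t => t fun j => ⟨D j, hDU j⟩) h1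

/-- the foliation -/
theorem final_fol [Algebra.EssFiniteType ℂ K] (hn : Algebra.trdeg ℂ K = n) (hn0 : 0 < n)
    (X : Set (Place ℂ K)) (δ : Place ℂ K → ℝ) (hδ : ∀ P ∈ X, 0 ≤ δ P ∧ δ P ≤ 1) (κ : ℕ)
    (hκ : ¬ Tw.KodairaGe n X δ κ) :
    ∃ F : Submodule K (Derivation ℂ K K), F ≠ ⊥ ∧ Fol.Involutive F ∧ Fol.AutInvariant X δ F ∧
      ∀ N a : ℕ, 0 < N + a → Fol.NoTensors n X δ F κ N a ∧
        (F ≠ ⊤ → Fol.NoTensors n X δ F 0 N a) := by
  obtain ⟨U, F, h1, h2, h3, h4, h5, h6, h7, h8, h9⟩ := fol_main hn hn0 (fun P hP => (hδ P hP).1)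
    (fun P hP => (hδ P hP).2) hκ
  refine ⟨F, fun h => h1 (le_bot_iff.1 (h ▸ h2)), h3, h6, fun N a hN => ⟨noTensors_of
    fun s hs B hB => ?_, fun hF => noTensors_of fun s hs B hB => ?_⟩⟩
  · exact h9 κ (Or.inl rfl) N a hN s hs B hB
  · exact h9 0 (Or.inr fun h => hF (top_le_iff.1 (h ▸ h2))) N a hN s hs B hB

/-- the distribution -/
theorem final_dist [Algebra.EssFiniteType ℂ K] (hn : Algebra.trdeg ℂ K = n) (hn0 : 0 < n)
    (X : Set (Place ℂ K)) (δ : Place ℂ K → ℝ) (hδ : ∀ P ∈ X, 0 ≤ δ P) (κ : ℕ)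
    (hκ : ¬ Tw.KodairaGe n X δ κ) :
    ∃ U : Submodule K (Derivation ℂ K K), U ≠ ⊥ ∧ Fol.AutInvariant X δ U ∧
      ∀ (N : ℕ) (a : ℤ), 0 < (N : ℤ) + finrank K U * a → Fol.NoTensors n X δ U κ N a ∧
        (U ≠ ⊤ → Fol.NoTensors n X δ U 0 N a) := by
  obtain ⟨U, h1, h2, h3, h4⟩ := exists_noTen_top hn hn0 hδ hκ
  exact ⟨U, h1, h2, fun N a hN => ⟨noTensors_of fun s hs B hB => h3 N a hN s hs B hB,
    fun hU => noTensors_of fun s hs B hB => h4 hU N a hN s hs B hB⟩⟩

end Pool.Agent.Helper91.FD
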