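import Pool.Agent.Helper91.FD.Ind
import Pool.Agent.Helper91.FD.Bracket
import Pool.Agent.Helper91.FD.Twist

/-!
Foliations without tensors.
-/

set_option autoImplicit false
set_option linter.unusedSectionVars false

namespace Pool.Agent.Helper91.FD

open Module FF Pool.Agent.W602.GT Pool.Agent.W603.LV Pool.Agent.TH143.GT Pool.Agent.Y220.OG
  Pool.Agent.Helper12.BL Pool.Agent.Helper91.HM Pool.Agent.Helper91.HM.Tw

variable {K : Type} [Field K] [Algebra ℂ K] {n : ℕ}

/-- the foliation which is generated by a distribution -/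
def clo (U : Submodule K (Derivation ℂ K K)) : Submodule K (Derivation ℂ K K) :=
  sInf {W | U ≤ W ∧ ∀ x ∈ W, ∀ y ∈ W, ⁅x, y⁆ ∈ W}

theorem le_clo (U : Submodule K (Derivation ℂ K K)) : U ≤ clo U :=
  le_sInf fun _ hW => hW.1

theorem clo_le {U W : Submodule K (Derivation ℂ K K)} (h : U ≤ W)
    (hW : ∀ x ∈ W, ∀ y ∈ W, ⁅x, y⁆ ∈ W) : clo U ≤ W :=
  sInf_le ⟨h, hW⟩

theorem clo_inv {U : Submodule K (Derivation ℂ K K)} :
    ∀ x ∈ clo U, ∀ y ∈ clo U, ⁅x, y⁆ ∈ clo U := by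
  intro x hx y hy
  rw [clo, Submodule.mem_sInf] at hx hy ⊢
  intro W hW
  exact hW.2 x (hx W hW) y (hy W hW)

theorem brk_le {U W : Submodule K (Derivation ℂ K K)} (h : U ≤ W)
    (hW : ∀ x ∈ W, ∀ y ∈ W, ⁅x, y⁆ ∈ W) : brk U ≤ W := by
  refine sup_le h (Submodule.span_le.2 ?_)
  rintro _ ⟨x, hx, y, hy, rfl⟩
  exact hW x (h hx) y (h hy)

theorem noPure_clo (hn : Algebra.trdeg ℂ K = n) {X : Set (Place ℂ K)} {δ : Place ℂ K → ℝ}
    (hδ : ∀ P ∈ X, 0 ≤ δ P) {κ : ℕ} (d : ℕ) :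
    ∀ U : Submodule K (Derivation ℂ K K), n - finrank K U = d → NoPure n X δ U.subtype κ →
      NoPure n X δ (clo U).subtype κ := by
  obtain ⟨hfin, hfr⟩ := finDim hn
  induction d using Nat.strong_induction_on with
  | _ d ih =>
    intro U hd hU
    by_cases hb : brk U = U
    · have h1 : clo U = U := le_antisymm (clo_le (le_refl U) fun x hx y hy => by
        rw [← hb]
        exact Submodule.mem_sup_right (Submodule.subset_span ⟨x, hx, y, hy, rfl⟩)) (le_clo U)
      rw [h1]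
      exact hU
    · have h1 : U < brk U := lt_of_le_of_ne le_sup_left (Ne.symm hb)
      have h2 : finrank K U < finrank K (brk U) := Submodule.finrank_lt_finrank_of_lt h1
      have h3 : finrank K (brk U) ≤ n := hfr ▸ Submodule.finrank_le _
      have h4 := ih (n - finrank K (brk U)) (by omega) (brk U) rfl (noPure_brk hδ hU)
      have h5 : clo (brk U) = clo U := le_antisymm
        (clo_le (brk_le (le_clo U) clo_inv) clo_inv)
        (clo_le (h1.le.trans (le_clo _)) clo_inv)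
      rw [← h5]
      exact h4

theorem cj_bracket {φ : K ≃+* K} {τ : ℂ ≃+* ℂ}
    (h : ∀ c, φ (algebraMap ℂ K c) = algebraMap ℂ K (τ c)) (x y : Derivation ℂ K K) :
    cj h ⁅x, y⁆ = ⁅cj h x, cj h y⁆ := by
  ext f
  rw [cj_apply, Derivation.commutator_apply, Derivation.commutator_apply, cj_apply, cj_apply,
    cj_apply, cj_apply, RingEquiv.symm_apply_apply, RingEquiv.symm_apply_apply, map_sub]

theorem invU_clo {X : Set (Place ℂ K)} {δ : Place ℂ K → ℝ} {U : Submodule K (Derivation ℂ K K)}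
    (hU : InvU X δ U) : InvU X δ (clo U) := by
  rintro φ hφ D hD D' hD'
  obtain ⟨⟨τ, hτ⟩, hX⟩ := id hφ
  have h1 : D' = cj hτ D := by
    ext y
    rw [cj_apply, ← hD', RingEquiv.apply_symm_apply]
  rw [h1]
  let W : Submodule K (Derivation ℂ K K) :=
    { carrier := {x | cj hτ x ∈ clo U}
      add_mem' := fun {x y} hx hy => by
        change cj hτ (x + y) ∈ clo U
        rw [cj_add]
        exact Submodule.add_mem _ hx hy
      zero_mem' := by
        change cj hτ 0 ∈ clo U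
        have h2 : cj hτ 0 = 0 := map_zero (cjE hτ)
        rw [h2]
        exact Submodule.zero_mem _
      smul_mem' := fun c x hx => by
        change cj hτ (c • x) ∈ clo U
        rw [cj_smul]
        exact Submodule.smul_mem _ _ hx }
  have h2 : clo U ≤ W := clo_le (fun x hx => by
    change cj hτ x ∈ clo U
    refine le_clo U (hU φ hφ x hx _ fun f => ?_)
    rw [cj_apply, RingEquiv.symm_apply_apply]) fun x hx y hy => by
      change cj hτ ⁅x, y⁆ ∈ clo U
      rw [cj_bracket]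
      exact clo_inv _ hx _ hy
  exact h2 hD

theorem noPure_of_noTen [FiniteDimensional K (Derivation ℂ K K)] {X : Set (Place ℂ K)}
    {δ : Place ℂ K → ℝ} {κ : ℕ} {U : Submodule K (Derivation ℂ K K)} (h : NoTen n X δ U κ) :
    NoPure n X δ U.subtype κ := by
  have key : ∀ {M : ℕ} {t : MultilinearMap K (fun _ : Fin M => U) K},
      IsPure n X δ U.subtype t → IsTen n X δ U.subtype 0
        (fun _ : Fin (finrank K U) → U => t) := by
    intro M t ht
    refine ⟨fun A B _ _ => by rw [zpow_zero, one_smul], fun P hP hdiv B _ D hD => ?_⟩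
    have h1 := ht P hP hdiv D hD
    rw [Int.cast_zero, add_zero]
    exact h1
  intro M hM t ht
  refine h M 0 (by simpa using hM) (fun _ => t) ⟨key ht.1, ?_⟩ _
    (Module.finBasis K U).linearIndependent
  obtain ⟨f, hf, hfs⟩ := ht.2
  exact ⟨f, hf, fun j => key (hfs j)⟩

/-- The main theorem. -/
theorem fol_main [Algebra.EssFiniteType ℂ K] (hn : Algebra.trdeg ℂ K = n) (hn0 : 0 < n)
    {X : Set (Place ℂ K)} {δ : Place ℂ K → ℝ} (hδ : ∀ P ∈ X, 0 ≤ δ P) (hδ1 : ∀ P ∈ X, δ P ≤ 1)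
    {κ : ℕ} (hκ : ¬ Tw.KodairaGe n X δ κ) :
    ∃ U F : Submodule K (Derivation ℂ K K), U ≠ ⊥ ∧ U ≤ F ∧
      (∀ D ∈ F, ∀ D' ∈ F, ⁅D, D'⁆ ∈ F) ∧
      (∀ W : Submodule K (Derivation ℂ K K), U ≤ W → (∀ D ∈ W, ∀ D' ∈ W, ⁅D, D'⁆ ∈ W) → F ≤ W) ∧
      InvU X δ U ∧ InvU X δ F ∧ NoTen n X δ U κ ∧ (U ≠ ⊤ → NoTen n X δ U 0) ∧
      ∀ κ' : ℕ, (κ' = κ ∨ U ≠ ⊤) → ∀ N a : ℕ, 0 < N + a → ∀ s : (Fin (finrank K F) → F) →
        MultilinearMap K (fun _ : Fin N => F) K, IsMov n X δ F.subtype κ' (a : ℤ) s →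
          ∀ B, LinearIndependent K B → s B = 0 := by
  obtain ⟨hfin, hfr⟩ := finDim hn
  obtain ⟨U, hU0, hUI, hU, hU'⟩ := exists_noTen_top hn hn0 hδ hκ
  refine ⟨U, clo U, hU0, le_clo U, clo_inv, fun W h1 h2 => clo_le h1 h2, hUI, invU_clo hUI, hU, hU',
    fun κ' hκ' N a hNa s hs B hB => ?_⟩
  have hF0 : 0 < finrank K (clo U) := by
    have h1 : clo U ≠ ⊥ := fun h => hU0 (le_bot_iff.1 (h ▸ le_clo U))
    have hnt : Nontrivial (clo U) := Submodule.nontrivial_iff_ne_bot.2 h1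
    exact Module.finrank_pos (R := K) (M := clo U)
  have hpure : NoPure n X δ (clo U).subtype κ' := by
    rcases hκ' with rfl | h
    · exact noPure_clo hn hδ _ U rfl (noPure_of_noTen hU)
    · have h1 := noPure_clo hn hδ _ U rfl (noPure_of_noTen (hU' h))
      intro M hM t ht
      exact h1 M hM t ⟨ht.1, fun i => i.elim0, algebraicIndependent_empty_type, fun i => i.elim0⟩
  exact noTwisted hn (Submodule.subtype_injective _) rfl hF0 hδ hδ1 hpure hNa hs hB

end Pool.Agent.Helper91.FD
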