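import Pool.Agent.Helper91.FD.Base

/-!
The forms which are given by invariants of the leading parts.
-/

set_option autoImplicit false
set_option linter.unusedSectionVars false

namespace Pool.Agent.Helper91.FD

open Module FF Pool.Agent.W602.GT Pool.Agent.W603.LV Pool.Agent.TH143.GT Pool.Agent.Y220.OG
  Pool.Agent.Helper12.BL Pool.Agent.Helper91.HM Pool.Agent.Helper91.HM.Tw

variable {K : Type} [Field K] [Algebra ℂ K] {V : Type} [AddCommGroup V] [Module K V] {r : ℕ}

section

variable {Y : Type} {N : Y → ℕ}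

/-- the coordinates of tensors -/
def vcrd (s : ∀ x : Y, MultilinearMap K (fun _ : Fin (N x) => V) K) (D : Fin r → V) :
    ∀ x, (Fin (N x) → Fin r) → K :=
  fun x I => s x (fun k => D (I k))

theorem vcrd_act (s : ∀ x : Y, MultilinearMap K (fun _ : Fin (N x) => V) K)
    (D : Fin r → V) (A : Matrix (Fin r) (Fin r) K) (x : Y) :
    vcrd s (lt A D) x = act A (vcrd s D x) := by
  funext J
  rw [vcrd, act]
  have h1 := (s x).map_sum (fun k j => A (J k) j • D j)
  refine h1.trans ?_
  refine Finset.sum_congr rfl fun I _ => ?_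
  exact (s x).map_smul_univ (fun k => A (J k) (I k)) (fun k => D (I k))

/-- the coordinates of the leading parts -/
noncomputable def lcv (A : Fin r → ℤ) (w : ℤ) (s : ∀ x : Y, (Fin r → V) →
      MultilinearMap K (fun _ : Fin (N x) => V) K) (D : Fin r → V) :
    ∀ x, (Fin (N x) → Fin r) → K :=
  fun x => lead A w (vcrd (fun x => s x D) D x)

theorem lcv_lt {A : Fin r → ℤ} {w : ℤ} {s : ∀ x : Y, (Fin r → V) →
      MultilinearMap K (fun _ : Fin (N x) => V) K} {a : Y → ℤ}
    (hs : ∀ x (C : Matrix (Fin r) (Fin r) K) (B : Fin r → V),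
      LinearIndependent K B → C.det ≠ 0 → s x (lt C B) = C.det ^ a x • s x B)
    {D : Fin r → V} (hD : LinearIndependent K D)
    (hsupp : ∀ x (J : Fin (N x) → Fin r), s x D (fun k => D (J k)) ≠ 0 → ∑ k, A (J k) ≤ w)
    {C : Matrix (Fin r) (Fin r) K} (hC : C.det ≠ 0) (hCA : ∀ i j, C i j ≠ 0 → A i ≤ A j) (x : Y) :
    lcv A w s (lt C D) x = fun J => C.det ^ a x * act (dg A C) (lcv A w s D x) J := by
  classical
  have h1 : vcrd (fun x => s x (lt C D)) (lt C D) x =
      fun J => C.det ^ a x * act C (vcrd (fun x => s x D) D x) J := by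
    funext J
    have h2 := congrFun (vcrd_act (fun x => s x D) D C x) J
    have h3 : vcrd (fun x => s x D) (lt C D) x J = act C (vcrd (fun x => s x D) D x) J := h2
    rw [← h3]
    change s x (lt C D) (fun k => lt C D (J k)) = C.det ^ a x * s x D (fun k => lt C D (J k))
    rw [hs x C D hD hC, smul_apply, smul_eq_mul]
  have h4 := lead_act (A := A) (w := w) (T := vcrd (fun x => s x D) D x)
    (fun I hI => hsupp x I hI) hCA
  funext J
  rw [lcv, h1, lcv, ← h4, lead, lead]
  split_ifs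
  · rfl
  · rw [mul_zero]

theorem RR_smul' (A : Fin r → ℤ) (q : Fin r → ℕ) (k : ℕ) (T : ∀ i, (Fin (N i) → Fin r) → K)
    (c : Y → K) (x : Y) (I : Fin (Fintype.card (IR N q k x)) → Fin r) :
    RR A q k (fun x J => c x * T x J) x I = c x ^ k * RR A q k T x I := by
  rw [RR, RR, wordT, wordT, Finset.prod_mul_distrib, Finset.prod_const, Finset.card_univ,
    Fintype.card_fin]
  ring

end

variable [Algebra ℝ K] [IsScalarTower ℝ ℂ K] {Q : Type} [Fintype Q] [DecidableEq Q] {M : Q → ℕ}

/-- the form which is given by an invariant -/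
noncomputable def LW (A : Fin r → ℤ) (w : ℤ) (q : Fin r → ℕ) (k : ℕ)
    (s : ∀ x : Q, (Fin r → V) →
      MultilinearMap K (fun _ : Fin (M x) => V) K)
    (p : ((Σ x, Fin (Fintype.card (IR M q k x))) → Fin r) → ℝ) (D : Fin r → V) : K :=
  ∑ I, algebraMap ℝ K (p I) * ∏ x, RR A q k (lcv A w s D) x (fun l => I ⟨x, l⟩)

theorem LW_smul (A : Fin r → ℤ) (w : ℤ) (q : Fin r → ℕ) (k : ℕ)
    (s : ∀ x : Q, (Fin r → V) →
      MultilinearMap K (fun _ : Fin (M x) => V) K)
    (p : ((Σ x, Fin (Fintype.card (IR M q k x))) → Fin r) → ℝ) (c : Q → K)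
    (D : Fin r → V) :
    LW A w q k (fun x B => c x • s x B) p D = (∏ x, c x) ^ k * LW A w q k s p D := by
  classical
  rw [LW, LW, Finset.mul_sum]
  refine Finset.sum_congr rfl fun I _ => ?_
  have h1 : (lcv A w (fun x B => c x • s x B) D) = fun x J => c x * lcv A w s D x J := by
    funext x J
    rw [lcv, lcv, lead, lead]
    split_ifs
    · rfl
    · rw [mul_zero]
  rw [h1]
  simp only [RR_smul']
  rw [Finset.prod_mul_distrib, Finset.prod_pow]
  ring

theorem LW_lt {A : Fin r → ℤ} {w : ℤ} {q : Fin r → ℕ} (hq : ∀ i j, A i = A j → q i = q j) {k : ℕ}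
    {s : ∀ x : Q, (Fin r → V) →
      MultilinearMap K (fun _ : Fin (M x) => V) K} {a : Q → ℤ}
    (hs : ∀ x (C : Matrix (Fin r) (Fin r) K) (B : Fin r → V),
      LinearIndependent K B → C.det ≠ 0 → s x (lt C B) = C.det ^ a x • s x B)
    {p : ((Σ x, Fin (Fintype.card (IR M q k x))) → Fin r) → ℝ} (hp : SLInv p) {m : ℕ}
    (hm : ∀ I', p I' ≠ 0 → ∀ i, (Finset.univ.filter fun k => I' k = i).card = m)
    {D : Fin r → V} (hD : LinearIndependent K D)
    (hsupp : ∀ x (J : Fin (M x) → Fin r), s x D (fun k => D (J k)) ≠ 0 → ∑ k, A (J k) ≤ w)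
    {C : Matrix (Fin r) (Fin r) K} (hC : C.det ≠ 0) (hCA : ∀ i j, C i j ≠ 0 → A i ≤ A j)
    (hchi : chi A q C ≠ 0) :
    LW A w q k s p (lt C D) =
      C.det ^ ((m : ℤ) + k * ∑ x, a x) * ((chi A q C) ^ Fintype.card Q)⁻¹ * LW A w q k s p D := by
  classical
  have hdg : ∀ i j, dg A C i j ≠ 0 → A i = A j := fun i j h => dg_ne h
  have h1 : lcv A w s (lt C D) = fun x J => C.det ^ a x * act (dg A C) (lcv A w s D x) J :=
    funext fun x => lcv_lt hs hD hsupp hC hCA x
  have h2 : ∀ x (J : Fin (Fintype.card (IR M q k x)) → Fin r),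
      RR A q k (lcv A w s (lt C D)) x J = (C.det ^ a x) ^ k * (chi A q C)⁻¹ *
        act (dg A C) (RR A q k (lcv A w s D) x) J := by
    intro x J
    rw [h1, RR_smul' A q k (fun x => act (dg A C) (lcv A w s D x)) (fun x => C.det ^ a x) x J,
      act_RR hq k (lcv A w s D) x hdg J, chi_dg]
    field_simp
  have h3 : ∀ I : (Σ x, Fin (Fintype.card (IR M q k x))) → Fin r,
      ∏ x, RR A q k (lcv A w s (lt C D)) x (fun l => I ⟨x, l⟩) =
      C.det ^ (k * ∑ x, a x) * ((chi A q C) ^ Fintype.card Q)⁻¹ *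
        act (dg A C) (wordT (RR A q k (lcv A w s D)) id) I := by
    intro I
    have h4 := act_word (RR A q k (lcv A w s D)) id (dg A C) I
    refine Eq.trans ?_ (congrArg _ h4.symm)
    simp only [h2]
    rw [Finset.prod_mul_distrib, Finset.prod_mul_distrib, Finset.prod_const, Finset.card_univ,
      inv_pow]
    congr 2
    rw [Finset.prod_pow, prod_zpow' hC, ← zpow_natCast, ← zpow_mul, mul_comm]
  rw [LW]
  simp only [h3]
  have h5 : ∑ I : (Σ x, Fin (Fintype.card (IR M q k x))) → Fin r, algebraMap ℝ K (p I) *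
      act (dg A C) (wordT (RR A q k (lcv A w s D)) id) I = C.det ^ m * LW A w q k s p D := by
    rw [LW, Finset.mul_sum]
    simp only [act, Finset.mul_sum]
    rw [Finset.sum_comm]
    refine Finset.sum_congr rfl fun I _ => ?_
    have h6 := hp.semi hm (dg A C) I
    rw [det_dg hCA] at h6
    have h7 : wordT (RR A q k (lcv A w s D)) id I =
      ∏ x, RR A q k (lcv A w s D) x (fun l => I ⟨x, l⟩) := rfl
    rw [← mul_assoc, ← h6, Finset.sum_mul, ← h7]
    exact Finset.sum_congr rfl fun J _ => (mul_assoc _ _ _).symm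
  have h8 : ∀ I : (Σ x, Fin (Fintype.card (IR M q k x))) → Fin r, algebraMap ℝ K (p I) *
      (C.det ^ (k * ∑ x, a x) * ((chi A q C) ^ Fintype.card Q)⁻¹ *
        act (dg A C) (wordT (RR A q k (lcv A w s D)) id) I) =
      C.det ^ (k * ∑ x, a x) * ((chi A q C) ^ Fintype.card Q)⁻¹ * (algebraMap ℝ K (p I) *
        act (dg A C) (wordT (RR A q k (lcv A w s D)) id) I) := fun I => by ring
  rw [Finset.sum_congr rfl fun I _ => h8 I, ← Finset.mul_sum, h5, zpow_add₀ hC, zpow_natCast]
  ring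

end Pool.Agent.Helper91.FD
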