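import Pool.Agent.Helper91.FD.Inv

/-!
Distributions without twisted tensors of positive weight.
-/

set_option autoImplicit false
set_option linter.unusedSectionVars false

namespace Pool.Agent.Helper91.FD

open Module FF Pool.Agent.W602.GT Pool.Agent.W603.LV Pool.Agent.TH143.GT Pool.Agent.Y220.OG
  Pool.Agent.Helper12.BL Pool.Agent.Helper91.HM Pool.Agent.Helper91.HM.Tw

variable {K : Type} [Field K] [Algebra ℂ K] {n : ℕ}

/-- invariance under the automorphisms of the pair -/
def InvU (X : Set (Place ℂ K)) (δ : Place ℂ K → ℝ) (U : Submodule K (Derivation ℂ K K)) : Prop :=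
  ∀ φ : K ≃+* K, Tw.Preserves X δ φ → ∀ D ∈ U, ∀ D' : Derivation ℂ K K,
    (∀ f, D' (φ f) = φ (D f)) → D' ∈ U

/-- there are no tensors of positive weight -/
def NoTen (n : ℕ) (X : Set (Place ℂ K)) (δ : Place ℂ K → ℝ) (U : Submodule K (Derivation ℂ K K))
    (κ : ℕ) : Prop :=
  ∀ (N : ℕ) (a : ℤ), 0 < (N : ℤ) + finrank K U * a → ∀ s : (Fin (finrank K U) → U) →
    MultilinearMap K (fun _ : Fin N => U) K, IsMov n X δ U.subtype κ a s →
      ∀ B, LinearIndependent K B → s B = 0

theorem exists_T [FiniteDimensional K (Derivation ℂ K K)] {X : Set (Place ℂ K)}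
    {δ : Place ℂ K → ℝ} {U : Submodule K (Derivation ℂ K K)} (hU : InvU X δ U) {φ : K ≃+* K}
    (hφ : Tw.Preserves X δ φ) {τ : ℂ ≃+* ℂ}
    (h : ∀ c, φ (algebraMap ℂ K c) = algebraMap ℂ K (τ c)) :
    ∃ T : U ≃+ U, (∀ (c : K) (x : U), T (c • x) = φ c • T x) ∧
      ∀ v, U.subtype (T v) = cj h (U.subtype v) := by
  have hmem : ∀ D ∈ U, cj h D ∈ U := fun D hD => hU φ hφ D hD _ fun f => by
    rw [cj_apply, RingEquiv.symm_apply_apply]
  obtain ⟨T0, hT0⟩ : ∃ T0 : U →+ U, ∀ v, (T0 v : Derivation ℂ K K) = cj h v :=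
    ⟨{ toFun := fun v => ⟨cj h v, hmem v v.2⟩
       map_zero' := Subtype.ext (map_zero (cjE h))
       map_add' := fun x y => Subtype.ext (cj_add h _ _) }, fun v => rfl⟩
  have hsm : ∀ (c : K) (x : U), T0 (c • x) = φ c • T0 x := by
    intro c x
    apply Subtype.ext
    rw [hT0]
    change cj h (c • (x : Derivation ℂ K K)) = φ c • ((T0 x : U) : Derivation ℂ K K)
    rw [hT0, cj_smul]
  have hinj : Function.Injective T0 := by
    intro x y hxy
    apply Subtype.ext
    apply (cjE h).injective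
    have h1 : ((T0 x : U) : Derivation ℂ K K) = T0 y := by rw [hxy]
    rw [hT0, hT0] at h1
    exact h1
  have hsurj : Function.Surjective T0 := by
    intro v
    let b := Module.finBasis K U
    have hli : LinearIndependent K (fun i => T0 (b i)) := by
      rw [Fintype.linearIndependent_iff]
      intro c hc i
      have h1 : T0 (∑ i, φ.symm (c i) • b i) = 0 := by
        rw [map_sum, ← hc]
        refine Finset.sum_congr rfl fun i _ => ?_
        rw [hsm, RingEquiv.apply_symm_apply]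
      have h2 := (map_eq_zero_iff T0 hinj).1 h1
      have h3 := (Fintype.linearIndependent_iff.1 b.linearIndependent) _ h2 i
      exact (map_eq_zero_iff φ.symm φ.symm.injective).1 h3
    have hsp := span_top rfl hli
    obtain ⟨c, hc⟩ := mem_span_fam.1 (hsp ▸ Submodule.mem_top :
      v ∈ Submodule.span K (Set.range fun i => T0 (b i)))
    refine ⟨∑ i, φ.symm (c i) • b i, ?_⟩
    rw [map_sum, ← hc]
    refine Finset.sum_congr rfl fun i _ => ?_
    rw [hsm, RingEquiv.apply_symm_apply]
  exact ⟨AddEquiv.ofBijective T0 ⟨hinj, hsurj⟩, hsm, hT0⟩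

theorem exists_noTen [Algebra.EssFiniteType ℂ K] (hn : Algebra.trdeg ℂ K = n)
    [FiniteDimensional K (Derivation ℂ K K)] {X : Set (Place ℂ K)}
    {δ : Place ℂ K → ℝ} (hδ : ∀ P ∈ X, 0 ≤ δ P) (r : ℕ) :
    ∀ U : Submodule K (Derivation ℂ K K), finrank K U = r → 0 < r → InvU X δ U → ∀ κ,
      ¬ KodGe (finrank K U) n X δ U.subtype κ → ∃ F : Submodule K (Derivation ℂ K K), F ≤ U ∧
        F ≠ ⊥ ∧ InvU X δ F ∧ NoTen n X δ F κ ∧ (F ≠ U → NoTen n X δ F 0) := by
  induction r using Nat.strong_induction_on with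
  | _ r ih =>
    intro U hr hr0 hU κ hκ
    by_cases hno : NoTen n X δ U κ
    · refine ⟨U, le_refl U, ?_, hU, hno, fun h => absurd rfl h⟩
      rintro rfl
      rw [finrank_bot] at hr
      omega
    · rw [NoTen] at hno
      push Not at hno
      obtain ⟨N, a, hNa, s, hs, B, hB, hne⟩ := hno
      obtain ⟨F', hF0, hF1, hFK, hFinv⟩ := exists_proper hn (Submodule.subtype_injective U) rfl
        (hr ▸ hr0) hδ hκ hNa hs ⟨B, hB, hne⟩ hB
      obtain ⟨U', hU'⟩ : ∃ U', U' = F'.map U.subtype := ⟨_, rfl⟩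
      have e : F' ≃ₗ[K] U' := (Submodule.equivMapOfInjective U.subtype
        (Submodule.subtype_injective U) F').trans (LinearEquiv.ofEq _ _ hU'.symm)
      have hfr : finrank K U' = finrank K F' := (LinearEquiv.finrank_eq e).symm
      have hlt : finrank K U' < r := by
        rw [hfr, ← hr]
        exact Submodule.finrank_lt hF1
      have hpos : 0 < finrank K U' := by
        rw [hfr]
        have hnt : Nontrivial F' := Submodule.nontrivial_iff_ne_bot.2 hF0
        exact Module.finrank_pos (R := K) (M := F')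
      have hInv' : InvU X δ U' := by
        rintro φ hφ D hD D' hD'
        obtain ⟨⟨τ, hτ⟩, hX⟩ := id hφ
        obtain ⟨T, hT, hTc⟩ := exists_T hU hφ hτ
        rw [hU'] at hD ⊢
        obtain ⟨v, hv, rfl⟩ := hD
        have h1 : D' = cj hτ (U.subtype v) := by
          ext y
          rw [cj_apply, ← hD', RingEquiv.apply_symm_apply]
        rw [h1, ← hTc]
        refine ⟨T v, ?_, rfl⟩
        exact hFinv φ T hT (vals_pull hτ hT hTc rfl hX hB) v hv
      have hK' : ¬ KodGe (finrank K U') n X δ U'.subtype 0 := by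
        intro hcon
        apply hFK
        rw [hfr] at hcon
        refine kodGe_transport ((Submodule.equivMapOfInjective U.subtype
          (Submodule.subtype_injective U) F').trans (LinearEquiv.ofEq _ _ hU'.symm)) ?_ hcon
        intro v
        rfl
      obtain ⟨F, h1, h2, h3, h4, -⟩ := ih _ hlt U' rfl hpos hInv' 0 hK'
      have h5 : U' ≤ U := by
        rw [hU']
        exact Submodule.map_subtype_le U F'
      exact ⟨F, h1.trans h5, h2, h3, fun N a hNa s hs B hB => h4 N a hNa s (isMov_zero hs) B hB,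
        fun _ => h4⟩

theorem finDim (hn : Algebra.trdeg ℂ K = n) : FiniteDimensional K (Derivation ℂ K K) ∧
    finrank K (Derivation ℂ K K) = n := by
  classical
  obtain ⟨e, he, hes⟩ := exists_basis (K := K) hn
  have hfin : Module.Finite K (Derivation ℂ K K) := ⟨⟨Finset.univ.image e, by
    rw [Finset.coe_image, Finset.coe_univ, Set.image_univ]
    exact hes⟩⟩
  refine ⟨hfin, ?_⟩
  rw [finrank_eq_card_basis (Basis.mk he hes.ge), Fintype.card_fin]

theorem exists_noTen_top [Algebra.EssFiniteType ℂ K] (hn : Algebra.trdeg ℂ K = n) (hn0 : 0 < n)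
    {X : Set (Place ℂ K)} {δ : Place ℂ K → ℝ} (hδ : ∀ P ∈ X, 0 ≤ δ P) {κ : ℕ}
    (hκ : ¬ Tw.KodairaGe n X δ κ) :
    ∃ F : Submodule K (Derivation ℂ K K), F ≠ ⊥ ∧ InvU X δ F ∧ NoTen n X δ F κ ∧
      (F ≠ ⊤ → NoTen n X δ F 0) := by
  obtain ⟨hfin, hfr⟩ := finDim hn
  have h1 : finrank K (⊤ : Submodule K (Derivation ℂ K K)) = n := by rw [finrank_top, hfr]
  obtain ⟨F, -, h2, h3, h4, h5⟩ := exists_noTen hn hδ n ⊤ h1 hn0
    (fun _ _ _ _ _ _ => Submodule.mem_top) κ (by
      rw [h1]
      exact fun h => hκ (kodairaGe_of_top hδ h))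
  exact ⟨F, h2, h3, h4, h5⟩

end Pool.Agent.Helper91.FD
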