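import Pool.Agent.Helper91.FD.Main

/-!
Automorphisms of the function field.
-/

set_option autoImplicit false
set_option linter.unusedSectionVars false

namespace Pool.Agent.Helper91.FD

open Module FF Pool.Agent.W602.GT Pool.Agent.W603.LV Pool.Agent.TH143.GT Pool.Agent.Y220.OG
  Pool.Agent.Helper12.BL Pool.Agent.Helper91.HM Pool.Agent.Helper91.HM.Tw

section base

variable {K : Type} [Field K] [Algebra ℂ K] {φ : K ≃+* K} {τ : ℂ ≃+* ℂ}
  (h : ∀ c, φ (algebraMap ℂ K c) = algebraMap ℂ K (τ c))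

theorem derReg_map_iff {P : Place ℂ K} {D : Derivation ℂ K K} :
    DerReg (mapPlace h P) (cj h D) ↔ DerReg P D := by
  refine ⟨fun hD f hf => ?_, derReg_map h⟩
  have h1 : (mapPlace h P).Reg (φ f) := by
    rw [reg_map, RingEquiv.symm_apply_apply]
    exact hf
  have h2 := hD _ h1
  rw [reg_map, cj_apply, RingEquiv.symm_apply_apply, RingEquiv.symm_apply_apply] at h2
  exact h2

theorem derLog_map_iff {P : Place ℂ K} {D : Derivation ℂ K K} :
    DerLog (mapPlace h P) (cj h D) ↔ DerLog P D := by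
  refine ⟨fun hD f => ?_, derLog_map h⟩
  have h2 := hD (φ f)
  rw [reg_map, map_div₀, cj_apply, RingEquiv.symm_apply_apply, RingEquiv.symm_apply_apply] at h2
  exact h2

end base

section pull

variable {K : Type} [Field K] [Algebra ℂ K] {V : Type} [AddCommGroup V] [Module K V] {n r : ℕ}
  {ι : V →ₗ[K] Derivation ℂ K K} {φ : K ≃+* K} {τ : ℂ ≃+* ℂ}
  (h : ∀ c, φ (algebraMap ℂ K c) = algebraMap ℂ K (τ c)) {T : V ≃+ V}
  (hT : ∀ (c : K) (x : V), T (c • x) = φ c • T x) (hc : ∀ v, ι (T v) = cj h (ι v))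

include hc in
theorem vreg_map {P : Place ℂ K} {v : V} : VReg ι (mapPlace h P) (T v) ↔ VReg ι P v := by
  rw [VReg, VReg, hc]
  exact derReg_map_iff h

include hc in
theorem vlog_map {P : Place ℂ K} {v : V} : VLog ι (mapPlace h P) (T v) ↔ VLog ι P v := by
  rw [VLog, VLog, hc]
  exact derLog_map_iff h

include hc in
theorem vinv_map {P : Place ℂ K} : VInv ι (mapPlace h P) ↔ VInv ι P := by
  constructor
  · intro hP v hv
    exact (vlog_map h hc).1 (hP _ ((vreg_map h hc).2 hv))
  · intro hP v hv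
    obtain ⟨u, rfl⟩ := T.surjective v
    exact (vlog_map h hc).2 (hP _ ((vreg_map h hc).1 hv))

include hc in
theorem dl_map {P : Place ℂ K} {δ : Place ℂ K → ℝ} (hδ : δ (mapPlace h P) = δ P) :
    dl δ ι (mapPlace h P) = dl δ ι P := by
  by_cases hP : VInv ι P
  · rw [dl, dl, if_pos hP, if_pos ((vinv_map h hc).2 hP)]
  · rw [dl, dl, if_neg hP, if_neg fun h' => hP ((vinv_map h hc).1 h'), hδ]

include hT in
theorem T_sum {m : ℕ} (c : Fin m → K) (B : Fin m → V) :
    T (∑ i, c i • B i) = ∑ i, φ (c i) • T (B i) := by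
  rw [map_sum]
  exact Finset.sum_congr rfl fun i _ => hT _ _

include hT in
theorem T_li {m : ℕ} {B : Fin m → V} (hB : LinearIndependent K B) :
    LinearIndependent K (fun i => T (B i)) := by
  rw [Fintype.linearIndependent_iff] at hB ⊢
  intro c hc i
  have h1 := T_sum hT (fun i => φ.symm (c i)) B
  simp only [RingEquiv.apply_symm_apply] at h1
  rw [hc] at h1
  have h3 := hB _ ((map_eq_zero_iff T T.injective).1 h1) i
  exact (map_eq_zero_iff φ.symm φ.symm.injective).1 h3

include hT hc in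
theorem isFr_map {P : Place ℂ K} {B : Fin r → V} (hB : IsFr ι P B) :
    IsFr ι (mapPlace h P) (fun i => T (B i)) := by
  refine ⟨fun i => (vreg_map h hc).2 (hB.1 i), fun v hv => ?_⟩
  obtain ⟨u, rfl⟩ := T.surjective v
  obtain ⟨c, hc1, hcD⟩ := hB.2 u ((vreg_map h hc).1 hv)
  refine ⟨fun i => φ (c i), fun i => ?_, ?_⟩
  · rw [reg_map, RingEquiv.symm_apply_apply]
    exact hc1 i
  · conv_lhs => rw [hcD]
    exact T_sum hT c B

/-- the pull-back of a tensor -/
def pullM {N : ℕ} (hT : ∀ (c : K) (x : V), T (c • x) = φ c • T x)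
    (s : MultilinearMap K (fun _ : Fin N => V) K) : MultilinearMap K (fun _ : Fin N => V) K where
  toFun x := φ.symm (s fun i => T (x i))
  map_update_add' := by
    intro inst x i v w
    have h1 : ∀ u, (fun j => T (Function.update x i u j)) =
        Function.update (fun j => T (x j)) i (T u) := by
      intro u
      funext j
      by_cases hj : j = i
      · subst hj
        rw [Function.update_self, Function.update_self]
      · rw [Function.update_of_ne hj, Function.update_of_ne hj]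
    rw [h1, h1, h1, map_add, s.map_update_add, map_add]
  map_update_smul' := by
    intro inst x i c v
    have h1 : ∀ u, (fun j => T (Function.update x i u j)) =
        Function.update (fun j => T (x j)) i (T u) := by
      intro u
      funext j
      by_cases hj : j = i
      · subst hj
        rw [Function.update_self, Function.update_self]
      · rw [Function.update_of_ne hj, Function.update_of_ne hj]
    rw [h1, h1, hT, s.map_update_smul, smul_eq_mul, map_mul, RingEquiv.symm_apply_apply,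
      smul_eq_mul]

theorem pullM_apply {N : ℕ} (s : MultilinearMap K (fun _ : Fin N => V) K)
    (x : Fin N → V) : pullM hT s x = φ.symm (s fun i => T (x i)) := rfl

include h hc in
theorem isTen_pull {X : Set (Place ℂ K)} {δ : Place ℂ K → ℝ}
    (hX : ∀ P ∈ X, ∀ P' : Place ℂ K, (∀ f, P'.ord (φ f) = P.ord f) → P' ∈ X ∧ δ P' = δ P)
    {N : ℕ} {a : ℤ}
    {s : (Fin r → V) → MultilinearMap K (fun _ : Fin N => V) K} (hs : IsTen n X δ ι a s) :
    IsTen n X δ ι a (fun B => pullM hT (s fun i => T (B i))) := by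
  refine ⟨fun A B hB hA => ?_, fun P hP hdiv B hB D hD => ?_⟩
  · ext x
    rw [smul_apply, pullM_apply]
    have h1 : (fun i => T (lt A B i)) = lt (A.map φ) (fun j => T (B j)) := by
      funext i
      exact T_sum hT _ _
    have h2 : (A.map φ).det = φ A.det := (RingHom.map_det (φ : K →+* K) A).symm
    rw [h1, hs.1 (A.map φ) _ (T_li hT hB) (by rw [h2]; exact (map_ne_zero φ).2 hA), h2,
      smul_apply, smul_eq_mul, map_mul, map_zpow₀, RingEquiv.symm_apply_apply, smul_eq_mul]
    rfl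
  · obtain ⟨h1, h2⟩ := hX P hP (mapPlace h P) fun f => by
      rw [mapPlace_ord, RingEquiv.symm_apply_apply]
    have h3 := hs.2 (mapPlace h P) h1 (divisorial_map h hdiv) _ (isFr_map h hT hc hB)
      (fun j => T (D j)) fun j => (vreg_map h hc).2 (hD j)
    rw [pullM_apply]
    rcases h3 with h3 | h3
    · left
      rw [h3, map_zero]
    · right
      rw [mapPlace_ord, dl_map h hc h2] at h3
      refine le_trans (le_of_eq ?_) h3
      simp only [vlog_map h hc]

include h hc in
theorem isMov_pull {X : Set (Place ℂ K)} {δ : Place ℂ K → ℝ}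
    (hX : ∀ P ∈ X, ∀ P' : Place ℂ K, (∀ f, P'.ord (φ f) = P.ord f) → P' ∈ X ∧ δ P' = δ P)
    {κ N : ℕ} {a : ℤ}
    {s : (Fin r → V) → MultilinearMap K (fun _ : Fin N => V) K} (hs : IsMov n X δ ι κ a s) :
    IsMov n X δ ι κ a (fun B => pullM hT (s fun i => T (B i))) := by
  obtain ⟨h1, f, hf, hfs⟩ := hs
  refine ⟨isTen_pull h hT hc hX h1, fun j => φ.symm (f j), algInd_conj h hf, fun j => ?_⟩
  have h2 : (fun B : Fin r → V => φ.symm (f j) • pullM hT (s fun i => T (B i))) =
      fun B => pullM hT ((fun B => f j • s B) fun i => T (B i)) := by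
    funext B
    ext x
    rw [smul_apply, pullM_apply, pullM_apply, smul_apply, smul_eq_mul, smul_eq_mul, map_mul]
  rw [h2]
  exact isTen_pull h hT hc hX (hfs j)

include h hT hc in
theorem vals_pull [FiniteDimensional K V] (hr : finrank K V = r) {X : Set (Place ℂ K)}
    {δ : Place ℂ K → ℝ}
    (hX : ∀ P ∈ X, ∀ P' : Place ℂ K, (∀ f, P'.ord (φ f) = P.ord f) → P' ∈ X ∧ δ P' = δ P)
    {κ : ℕ} {e0 : Fin r → V} (he0 : LinearIndependent K e0) :
    ∀ d, ∀ t ∈ vals n X δ ι κ e0 d, ∃ t' ∈ vals n X δ ι κ e0 d,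
          ∀ x : Fin d → V, t (fun k => T (x k)) ≠ 0 → t' x ≠ 0 := by
  rintro d t ⟨a', s', hpos, hs', rfl⟩
  have he0s := span_top hr he0
  refine ⟨pullM hT (s' fun i => T (e0 i)), ⟨a', fun B => pullM hT (s' fun i => T (B i)), hpos,
    isMov_pull h hT hc hX hs', rfl⟩, fun x hne => ?_⟩
  obtain ⟨C, hC⟩ := exists_lt (D := fun i => T (e0 i)) he0s
  have h3 := T_li hT he0
  rw [hC] at h3
  have h4 := (lt_li.1 h3).2
  rw [pullM_apply]
  have h5 : s' (fun i => T (e0 i)) = C.det ^ a' • s' e0 := by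
    rw [hC]
    exact hs'.1.1 C e0 he0 h4
  rw [h5, smul_apply, smul_eq_mul]
  exact (map_ne_zero φ.symm).2 (mul_ne_zero (zpow_ne_zero _ h4) hne)

end pull

section transport

variable {K : Type} [Field K] [Algebra ℂ K] {V V' : Type} [AddCommGroup V] [Module K V]
  [AddCommGroup V'] [Module K V'] {n r : ℕ}
  {ι : V →ₗ[K] Derivation ℂ K K} {ι' : V' →ₗ[K] Derivation ℂ K K}

theorem kodGe_transport (e : V ≃ₗ[K] V') (he : ∀ v, ι' (e v) = ι v) {X : Set (Place ℂ K)}
    {δ : Place ℂ K → ℝ} {κ : ℕ} (h : KodGe r n X δ ι' κ) : KodGe r n X δ ι κ := by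
  have hreg : ∀ P v, VReg ι' P (e v) ↔ VReg ι P v := fun P v => by rw [VReg, VReg, he]
  have hlog : ∀ P v, VLog ι' P (e v) ↔ VLog ι P v := fun P v => by rw [VLog, VLog, he]
  have hinv : ∀ P, VInv ι' P ↔ VInv ι P := fun P => by
    constructor
    · intro hP v hv
      exact (hlog P v).1 (hP _ ((hreg P v).2 hv))
    · intro hP v hv
      obtain ⟨u, rfl⟩ := e.surjective v
      exact (hlog P u).2 (hP _ ((hreg P u).1 hv))
  have hdl : ∀ P, dl δ ι' P = dl δ ι P := fun P => by
    by_cases hP : VInv ι P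
    · rw [dl, dl, if_pos hP, if_pos ((hinv P).2 hP)]
    · rw [dl, dl, if_neg hP, if_neg fun h' => hP ((hinv P).1 h')]
  obtain ⟨m, hm, ω, hω, D, hD, halg⟩ := h
  refine ⟨m, hm, fun j B => ω j (fun i => e (B i)), fun j => ⟨fun A D => ?_,
    fun P hP hdiv D hD => ?_⟩, fun i => e.symm (D i), ?_, ?_⟩
  · have h1 : (fun i => e (lt A D i)) = lt A (fun i => e (D i)) := by
      funext i
      rw [lt, map_sum]
      exact Finset.sum_congr rfl fun l _ => map_smul _ _ _
    change ω j (fun i => e (lt A D i)) = A.det ^ m * ω j (fun i => e (D i))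
    rw [h1, (hω j).1]
  · rw [← hdl]
    exact (hω j).2 P hP hdiv _ fun i => (hreg P _).2 (hD i)
  · simp only [LinearEquiv.apply_symm_apply]
    exact hD
  · simp only [LinearEquiv.apply_symm_apply]
    exact halg

theorem kodGe_zero {X : Set (Place ℂ K)} {δ : Place ℂ K → ℝ} {κ : ℕ}
    (h : KodGe r n X δ ι κ) : KodGe r n X δ ι 0 := by
  obtain ⟨m, hm, ω, hω, D, hD, -⟩ := h
  exact ⟨m, hm, fun _ => ω 0, fun _ => hω 0, D, hD, algebraicIndependent_empty_type⟩

theorem isMov_zero {X : Set (Place ℂ K)} {δ : Place ℂ K → ℝ} {κ N : ℕ} {a : ℤ}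
    {s : (Fin r → V) → MultilinearMap K (fun _ : Fin N => V) K}
    (h : IsMov n X δ ι κ a s) : IsMov n X δ ι 0 a s :=
  ⟨h.1, fun i => i.elim0, algebraicIndependent_empty_type, fun i => i.elim0⟩

theorem kodairaGe_of_top {X : Set (Place ℂ K)} {δ : Place ℂ K → ℝ} (hδ : ∀ P ∈ X, 0 ≤ δ P) {κ : ℕ}
    (h : KodGe n n X δ (⊤ : Submodule K (Derivation ℂ K K)).subtype κ) : Tw.KodairaGe n X δ κ := by
  obtain ⟨m, hm, ω, hω, D, hD, halg⟩ := h
  refine ⟨m, hm, fun j B => ω j (fun i => ⟨B i, Submodule.mem_top⟩), fun j => ⟨fun A D => ?_,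
    fun P hP hdiv D hD => ?_⟩, fun i => (D i).1, hD, halg⟩
  · have h1 : (fun i => (⟨∑ l, A i l • D l, Submodule.mem_top⟩ :
        (⊤ : Submodule K (Derivation ℂ K K)))) =
        lt A (fun i => (⟨D i, Submodule.mem_top⟩ : (⊤ : Submodule K (Derivation ℂ K K)))) := by
      funext i
      apply Subtype.ext
      change ∑ l, A i l • D l = (⊤ : Submodule K (Derivation ℂ K K)).subtype
        (∑ l, A i l • (⟨D l, Submodule.mem_top⟩ : (⊤ : Submodule K (Derivation ℂ K K))))
      rw [map_sum]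
      rfl
    have h2 := (hω j).1 A (fun i => (⟨D i, Submodule.mem_top⟩ :
      (⊤ : Submodule K (Derivation ℂ K K))))
    rw [← h1] at h2
    exact h2
  · have h1 := (hω j).2 P hP hdiv (fun i => ⟨D i, Submodule.mem_top⟩) hD
    change Gr P _ _
    refine Gr.mono ?_ h1
    rw [neg_le_neg_iff]
    exact mul_le_mul_of_nonneg_left (dl_le (hδ P hP)) (Nat.cast_nonneg _)

end transport

end Pool.Agent.Helper91.FD
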