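import Pool.Agent.Helper91.FD.Kod

/-!
Tensors which are not twisted by multiples of the canonical divisor.
-/

set_option autoImplicit false
set_option linter.unusedSectionVars false

namespace Pool.Agent.Helper91.FD

open Module FF Pool.Agent.W602.GT Pool.Agent.W603.LV Pool.Agent.TH143.GT Pool.Agent.Y220.OG
  Pool.Agent.Helper12.BL Pool.Agent.Helper91.HM Pool.Agent.Helper91.HM.Tw

variable {K : Type} [Field K] [Algebra ℂ K] {V : Type} [AddCommGroup V] [Module K V] {n r : ℕ}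

/-- pure tensors -/
def IsPure (n : ℕ) (X : Set (Place ℂ K)) (δ : Place ℂ K → ℝ) (ι : V →ₗ[K] Derivation ℂ K K) {M : ℕ}
    (t : MultilinearMap K (fun _ : Fin M => V) K) : Prop :=
  ∀ P ∈ X, Divisorial n P → ∀ D : Fin M → V, (∀ j, VReg ι P (D j)) →
    Gr P (-((Nat.card {j : Fin M // ¬ VLog ι P (D j)} : ℝ) * dl δ ι P)) (t D)

/-- movable pure tensors -/
def IsPureMov (n : ℕ) (X : Set (Place ℂ K)) (δ : Place ℂ K → ℝ) (ι : V →ₗ[K] Derivation ℂ K K)
    (κ : ℕ) {M : ℕ} (t : MultilinearMap K (fun _ : Fin M => V) K) : Prop :=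
  IsPure n X δ ι t ∧ ∃ f : Fin κ → K, AlgebraicIndependent ℂ f ∧ ∀ j, IsPure n X δ ι (f j • t)

/-- there are no movable pure tensors of positive degree -/
def NoPure (n : ℕ) (X : Set (Place ℂ K)) (δ : Place ℂ K → ℝ) (ι : V →ₗ[K] Derivation ℂ K K)
    (κ : ℕ) : Prop :=
  ∀ M : ℕ, 0 < M → ∀ t : MultilinearMap K (fun _ : Fin M => V) K, IsPureMov n X δ ι κ t → t = 0

end Pool.Agent.Helper91.FD
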