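import Pool.Agent.Helper91.FD.Form

/-!
The poles of the forms which are given by invariants of the leading parts.
-/

set_option autoImplicit false
set_option linter.unusedSectionVars false

namespace Pool.Agent.Helper91.FD

open Module FF Pool.Agent.W602.GT Pool.Agent.W603.LV Pool.Agent.TH143.GT Pool.Agent.Y220.OG
  Pool.Agent.Helper12.BL Pool.Agent.Helper91.HM Pool.Agent.Helper91.HM.Tw

variable {K : Type} [Field K] [Algebra ℂ K] {V : Type} [AddCommGroup V] [Module K V] {n r : ℕ}
  {ι : V →ₗ[K] Derivation ℂ K K}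

/-- vector fields can be changed, by a block triangular substitution all whose blocks have
determinant one, such that they are logarithmic, with one exception -/
theorem reg_changeV {A : Fin r → ℤ} {P : Place ℂ K} {D : Fin r → V}
    (hD : ∀ i, VReg ι P (D i)) {i0 : Fin r} (hi0 : ¬ VLog ι P (D i0))
    (hlog : ∀ i, A i0 < A i → VLog ι P (D i)) :
    ∃ C : Matrix (Fin r) (Fin r) K, C.det = 1 ∧ (∀ i j, C i j ≠ 0 → A i ≤ A j) ∧
      (∀ t, (C.toSquareBlock A t).det = 1) ∧ (∀ i, VReg ι P (lt C D i)) ∧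
      ∀ i, i ≠ i0 → VLog ι P (lt C D i) := by
  classical
  obtain ⟨t, ht0, ht⟩ := P.surj
  have htr : P.Reg t := Or.inr (by rw [ht]; norm_num)
  have hi1 : ¬ Ge P 1 (ι (D i0) t) := fun h => hi0 (log_of_reg (hD i0) ht0 ht h)
  have hne : ι (D i0) t ≠ 0 := fun h => hi1 (Or.inl h)
  have ho : P.ord (ι (D i0) t) = 0 := by
    have h1 := (hD i0 t htr).resolve_left hne
    have h2 : ¬ 1 ≤ P.ord (ι (D i0) t) := fun h => hi1 (Or.inr h)
    omega
  obtain ⟨c, hc⟩ : ∃ c : Fin r → K, ∀ i, c i = if A i ≤ A i0 then ι (D i) t / ι (D i0) t else 0 :=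
    ⟨_, fun _ => rfl⟩
  have hcr : ∀ i, P.Reg (c i) := by
    intro i
    rw [hc]
    split_ifs
    · rw [reg_iff_ge]
      have := ge_div hne (hD i t htr)
      rwa [ho, sub_zero] at this
    · exact P.reg_zero
  obtain ⟨M, hM⟩ : ∃ M : Matrix (Fin r) (Fin r) K,
    M = (1 : Matrix (Fin r) (Fin r) K).updateCol i0 fun i => if i = i0 then 1 else - c i :=
      ⟨_, rfl⟩
  have hsum : ∀ i, lt M D i = if i = i0 then D i0 else D i - c i • D i0 := by
    intro i
    rw [lt, ← Finset.add_sum_erase _ _ (Finset.mem_univ i0), hM, Matrix.updateCol_self]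
    have h1 : ∀ j ∈ Finset.univ.erase i0, (1 : Matrix (Fin r) (Fin r) K).updateCol i0
        (fun i => if i = i0 then 1 else - c i) i j • D j =
          if i = j then D i else 0 := by
      intro j hj
      rw [Matrix.updateCol_ne (Finset.ne_of_mem_erase hj), Matrix.one_apply]
      split_ifs with h
      · rw [one_smul, h]
      · rw [zero_smul]
    rw [Finset.sum_congr rfl h1, Finset.sum_ite_eq]
    by_cases hi : i = i0
    · rw [if_pos hi, if_pos hi, if_neg (by rw [hi]; exact Finset.notMem_erase _ _), one_smul,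
        add_zero]
    · rw [if_neg hi, if_neg hi, if_pos (Finset.mem_erase.mpr ⟨hi, Finset.mem_univ _⟩), neg_smul]
      abel
  refine ⟨M, ?_, fun i j hij => ?_, fun u => ?_, fun i => ?_, fun i hi => ?_⟩
  · rw [hM, det_updateCol_one]
    exact if_pos rfl
  · rw [hM, Matrix.updateCol_apply] at hij
    by_cases hj : j = i0
    · rw [if_pos hj] at hij
      by_cases hi : i = i0
      · rw [hi, hj]
      · rw [if_neg hi, hc] at hij
        rw [hj]
        by_contra hlt
        rw [if_neg hlt, neg_zero] at hij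
        exact hij rfl
    · rw [if_neg hj, Matrix.one_apply] at hij
      by_cases h : i = j
      · rw [h]
      · rw [if_neg h] at hij
        exact absurd rfl hij
  · by_cases hu : A i0 = u
    · have h1 : M.toSquareBlock A u = (1 : Matrix {a // A a = u} {a // A a = u} K).updateCol
          ⟨i0, hu⟩ fun i => if i.1 = i0 then 1 else - c i.1 := by
        ext i j
        rw [Matrix.toSquareBlock_def, Matrix.of_apply, hM, Matrix.updateCol_apply,
          Matrix.updateCol_apply, Matrix.one_apply, Matrix.one_apply]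
        by_cases hj : j.1 = i0
        · rw [if_pos hj, if_pos (Subtype.ext hj)]
        · rw [if_neg hj, if_neg fun h => hj (congrArg Subtype.val h)]
          exact if_congr (Subtype.ext_iff).symm rfl rfl
      rw [h1, det_updateCol_one]
      exact if_pos rfl
    · have h1 : M.toSquareBlock A u = 1 := by
        ext i j
        have hj : j.1 ≠ i0 := fun h => hu (by rw [← h]; exact j.2)
        rw [Matrix.toSquareBlock_def, Matrix.of_apply, hM, Matrix.updateCol_ne hj,
          Matrix.one_apply, Matrix.one_apply]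
        exact if_congr (Subtype.ext_iff).symm rfl rfl
      rw [h1, Matrix.det_one]
  · rw [hsum]
    split_ifs with hi
    · exact hD i0
    · exact vreg_sub (hD i) (vreg_smul (hD i0) (hcr i))
  · rw [hsum, if_neg hi]
    by_cases hA : A i ≤ A i0
    · refine log_of_reg (vreg_sub (hD i) (vreg_smul (hD i0) (hcr i))) ht0 ht (Or.inl ?_)
      rw [map_sub, map_smul, Derivation.sub_apply, Derivation.smul_apply, smul_eq_mul, hc,
        if_pos hA, div_mul_cancel₀ _ hne, sub_self]
    · rw [hc, if_neg hA, zero_smul, sub_zero]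
      exact hlog i (not_le.1 hA)

variable [Algebra ℝ K] [IsScalarTower ℝ ℂ K] {Q : Type} [Fintype Q] [DecidableEq Q] {M : Q → ℕ}

theorem LW_reg {X : Set (Place ℂ K)} {δ : Place ℂ K → ℝ} (hδ : ∀ P ∈ X, 0 ≤ δ P)
    {A : Fin r → ℤ} {w : ℤ} {q : Fin r → ℕ} {Qf : ℤ → ℕ} (hQ : ∀ j, q j = Qf (A j)) {k : ℕ}
    {s : ∀ x : Q, (Fin r → V) → MultilinearMap K (fun _ : Fin (M x) => V) K} {a : Q → ℤ}
    (hs : ∀ x, IsTen n X δ ι (a x) (s x))
    {p : ((Σ x, Fin (Fintype.card (IR M q k x))) → Fin r) → ℝ} (hp : SLInv p) {m : ℕ}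
    (hm : ∀ I', p I' ≠ 0 → ∀ i, (Finset.univ.filter fun k => I' k = i).card = m)
    {D : Fin r → V} (hD : LinearIndependent K D)
    (hsupp : ∀ x (J : Fin (M x) → Fin r), s x D (fun k => D (J k)) ≠ 0 → ∑ k, A (J k) ≤ w)
    {P : Place ℂ K} (hP : P ∈ X) (hdiv : Divisorial n P) (hframe : IsFr ι P D) {i0 : Fin r}
    (hi0 : ¬ VLog ι P (D i0)) (hlog : ∀ i, A i0 < A i → VLog ι P (D i)) :
    Gr P (-(((m : ℝ) - Fintype.card Q * q i0 + k * ∑ x, a x) * δ P)) (LW A w q k s p D) := by
  classical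
  have hdl : dl δ ι P = δ P := if_neg fun h => hi0 (h _ (hframe.1 i0))
  have hq : ∀ i j, A i = A j → q i = q j := fun i j hij => by rw [hQ, hQ, hij]
  obtain ⟨C, hC1, hCA, hCb, hreg, hlog'⟩ := reg_changeV hframe.1 hi0 hlog
  have hchi : chi A q C = 1 := by
    rw [chi_eq hQ]
    exact Finset.prod_eq_one fun t _ => by rw [hCb, one_pow]
  have h1 := LW_lt hq (a := a) (fun x => (hs x).1) hp hm hD hsupp (C := C)
    (by rw [hC1]; exact one_ne_zero) hCA (by rw [hchi]; exact one_ne_zero)
  rw [hC1, hchi, one_zpow, one_pow, inv_one, mul_one, one_mul] at h1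
  rw [← h1, LW]
  have h2 : ∀ x, s x (lt C D) = s x D := fun x => by
    have h3 := (hs x).1 C D hD (by rw [hC1]; exact one_ne_zero)
    rw [hC1, one_zpow, one_smul] at h3
    exact h3
  refine Gr.sum _ _ fun I _ => ?_
  by_cases hI : p I = 0
  · rw [hI, map_zero, zero_mul]
    exact Gr.zero
  have h3 : Gr P 0 (algebraMap ℝ K (p I)) := by
    rw [IsScalarTower.algebraMap_apply ℝ ℂ K]
    exact Gr.const _
  -- the coordinates
  have h4 : ∀ x (J : Fin (M x) → Fin r), Gr P (-((((Finset.univ.filter fun l => J l = i0).card : ℝ) +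
      a x) * δ P)) (lcv A w s (lt C D) x J) := by
    intro x J
    rw [lcv, lead]
    split_ifs
    swap
    · exact Gr.zero
    have h4 := (hs x).2 P hP hdiv D hframe (fun l => lt C D (J l)) (fun l => hreg _)
    have h5 : vcrd (fun x => s x (lt C D)) (lt C D) x J = s x D (fun l => lt C D (J l)) := by
      change s x (lt C D) (fun l => lt C D (J l)) = _
      rw [h2]
    rw [h5]
    refine Gr.mono ?_ h4
    rw [hdl, neg_le_neg_iff]
    refine mul_le_mul_of_nonneg_right ?_ (hδ P hP)
    rw [Nat.card_eq_fintype_card, Fintype.card_subtype]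
    have h5 : (Finset.univ.filter fun l : Fin (M x) => ¬ VLog ι P (lt C D (J l))) ⊆
        Finset.univ.filter fun l : Fin (M x) => J l = i0 := by
      intro l hl
      rw [Finset.mem_filter] at hl ⊢
      refine ⟨hl.1, ?_⟩
      by_contra hne
      exact hl.2 (hlog' _ hne)
    have h6 := Finset.card_le_card h5
    have h7 : ((Finset.univ.filter fun l : Fin (M x) => ¬ VLog ι P (lt C D (J l))).card : ℝ) ≤
        ((Finset.univ.filter fun l : Fin (M x) => J l = i0).card : ℝ) := by
      exact_mod_cast h6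
    linarith
  have h5 : ∀ x, Gr P (-((((Finset.univ.filter fun l => I ⟨x, l⟩ = i0).card : ℝ) - q i0 +
      k * a x) * δ P)) (RR A q k (lcv A w s (lt C D)) x (fun l => I ⟨x, l⟩)) := by
    intro x
    rw [RR]
    by_cases hD0 : D0 K A q (fun z => I ⟨x, Fintype.equivFin (IR M q k x) (Sum.inr z)⟩) = 0
    · rw [hD0, mul_zero]
      exact Gr.zero
    have h6 := (Gr.prod (P := P) Finset.univ _ _ fun (y : Fin k) _ => h4 x
      (fun l => I ⟨x, Fintype.equivFin (IR M q k x) (Sum.inl ⟨y, l⟩)⟩)).mul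
        (D0_gr A q (fun z => I ⟨x, Fintype.equivFin (IR M q k x) (Sum.inr z)⟩))
    refine Gr.mono (le_of_eq ?_) h6
    have h7 := D0_count hD0 i0
    have h8 : (((Finset.univ.filter fun l => I ⟨x, l⟩ = i0).card : ℕ) : ℝ) =
        ∑ y : Fin k, (((Finset.univ.filter fun l : Fin (M x) =>
          I ⟨x, Fintype.equivFin (IR M q k x) (Sum.inl ⟨y, l⟩)⟩ = i0).card : ℕ) : ℝ) + q i0 := by
      rw [← h7, ← Nat.cast_sum, ← Nat.cast_add]
      congr 1
      rw [Finset.card_filter, sum_IR q k x]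
      congr 1
      · exact Finset.sum_congr rfl fun y _ => by rw [Finset.card_filter]
      · rw [Finset.card_filter]
    rw [h8, add_zero, Finset.sum_neg_distrib, ← Finset.sum_mul, Finset.sum_add_distrib,
      Finset.sum_const, Finset.card_univ, Fintype.card_fin, nsmul_eq_mul]
    ring
  have h6 := h3.mul (Gr.prod (P := P) Finset.univ _ _ fun x _ => h5 x)
  refine Gr.mono (le_of_eq ?_) h6
  rw [zero_add, Finset.sum_neg_distrib, ← Finset.sum_mul, Finset.sum_add_distrib,
    Finset.sum_sub_distrib, Finset.sum_const, Finset.card_univ, nsmul_eq_mul, ← Finset.mul_sum]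
  have h7 := hm I hI i0
  have h8 : ∑ x, ((Finset.univ.filter fun l => I ⟨x, l⟩ = i0).card : ℝ) = m := by
    rw [← h7, ← Nat.cast_sum]
    congr 1
    rw [Finset.card_filter, Fintype.sum_sigma]
    exact Finset.sum_congr rfl fun x _ => by rw [Finset.card_filter]
  rw [h8]
  push_cast
  ring

theorem LW_reg_inv {X : Set (Place ℂ K)} {δ : Place ℂ K → ℝ}
    {A : Fin r → ℤ} {w : ℤ} {q : Fin r → ℕ} {k : ℕ}
    {s : ∀ x : Q, (Fin r → V) → MultilinearMap K (fun _ : Fin (M x) => V) K} {a : Q → ℤ}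
    (hs : ∀ x, IsTen n X δ ι (a x) (s x))
    (p : ((Σ x, Fin (Fintype.card (IR M q k x))) → Fin r) → ℝ)
    {D : Fin r → V} {P : Place ℂ K} (hP : P ∈ X) (hdiv : Divisorial n P) (hframe : IsFr ι P D)
    (hlog : ∀ i, VLog ι P (D i)) : Gr P 0 (LW A w q k s p D) := by
  classical
  have hdl : dl δ ι P = 0 := if_pos fun v hv => by
    obtain ⟨c, hc, rfl⟩ := hframe.2 v hv
    exact vlog_sum hc hlog
  rw [LW]
  refine Gr.sum _ _ fun I _ => ?_
  have h3 : Gr P 0 (algebraMap ℝ K (p I)) := by
    rw [IsScalarTower.algebraMap_apply ℝ ℂ K]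
    exact Gr.const _
  have h4 : ∀ x (J : Fin (M x) → Fin r), Gr P 0 (lcv A w s D x J) := by
    intro x J
    rw [lcv, lead]
    split_ifs
    swap
    · exact Gr.zero
    have h4 := (hs x).2 P hP hdiv D hframe (fun l => D (J l)) (fun l => hframe.1 _)
    rw [hdl, mul_zero, neg_zero] at h4
    exact h4
  have h5 : ∀ x, Gr P 0 (RR A q k (lcv A w s D) x (fun l => I ⟨x, l⟩)) := by
    intro x
    rw [RR]
    have h6 := (Gr.prod (P := P) Finset.univ _ _ fun (y : Fin k) _ => h4 x
      (fun l => I ⟨x, Fintype.equivFin (IR M q k x) (Sum.inl ⟨y, l⟩)⟩)).mul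
        (D0_gr A q (fun z => I ⟨x, Fintype.equivFin (IR M q k x) (Sum.inr z)⟩))
    rw [Finset.sum_const_zero, zero_add] at h6
    exact h6
  have h6 := h3.mul (Gr.prod (P := P) Finset.univ _ _ fun x _ => h5 x)
  rw [Finset.sum_const_zero, zero_add] at h6
  exact h6

/-- the forms are sections of the divisors of flags -/
theorem flagV {X : Set (Place ℂ K)} {δ : Place ℂ K → ℝ} (hδ : ∀ P ∈ X, 0 ≤ δ P)
    {g : Fin r → V}
    {A : Fin r → ℤ} {w : ℤ} {m : ℕ} (hm : 0 < m) {q : Fin r → ℕ} {κ0 : ℤ}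
    (hq : ∀ j, (q j : ℤ) = κ0 + m * A j) {k : ℕ}
    {s : ∀ x : Q, (Fin r → V) → MultilinearMap K (fun _ : Fin (M x) => V) K} {a : Q → ℤ}
    (hs : ∀ x, IsTen n X δ ι (a x) (s x))
    (hsupp : ∀ D : Fin r → V, LinearIndependent K D →
      (∀ j, D j ∈ Submodule.span K (g '' {l | A j ≤ A l})) →
        ∀ x (J : Fin (M x) → Fin r), s x D (fun k => D (J k)) ≠ 0 → ∑ k, A (J k) ≤ w)
    {p : ((Σ x, Fin (Fintype.card (IR M q k x))) → Fin r) → ℝ} (hp : SLInv p) {m' : ℕ}
    (hm' : ∀ I', p I' ≠ 0 → ∀ i, (Finset.univ.filter fun k => I' k = i).card = m')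
    (hQ0 : 0 < Fintype.card Q) {e : Fin r → ℤ}
    (he : ∀ j, e j = m' + k * ∑ x, a x - Fintype.card Q * q j) :
    IsFlag n X δ ι g e (LW A w q k s p) := by
  classical
  have hQ0' : (0 : ℤ) < Fintype.card Q := by exact_mod_cast hQ0
  have hm0' : (0 : ℤ) < m := by exact_mod_cast hm
  have heA : ∀ i j, e j ≤ e i ↔ A i ≤ A j := by
    intro i j
    rw [he, he, hq, hq]
    constructor
    · intro h
      have h1 : (Fintype.card Q : ℤ) * (κ0 + m * A i) ≤ Fintype.card Q * (κ0 + m * A j) := by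
        linarith
      have h2 := le_of_mul_le_mul_left h1 hQ0'
      have h3 : (m : ℤ) * A i ≤ m * A j := by linarith
      exact le_of_mul_le_mul_left h3 hm0'
    · intro h
      have h3 := mul_le_mul_of_nonneg_left h hm0'.le
      have h2 : κ0 + m * A i ≤ κ0 + m * A j := by linarith
      have h1 := mul_le_mul_of_nonneg_left h2 hQ0'.le
      linarith
  have heq : ∀ i j, A i = A j ↔ e i = e j := fun i j =>
    ⟨fun h => le_antisymm ((heA j i).2 h.ge) ((heA i j).2 h.le),
      fun h => le_antisymm ((heA i j).1 h.ge) ((heA j i).1 h.le)⟩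
  have hqA : ∀ i j, A i = A j → q i = q j := by
    intro i j hij
    have h1 := hq i
    have h2 := hq j
    rw [hij, ← h2] at h1
    exact_mod_cast h1
  have hadapt : ∀ D : Fin r → V, Adp (K := K) g e D →
      ∀ j, D j ∈ Submodule.span K (g '' {l | A j ≤ A l}) := by
    intro D hD j
    have h1 := hD.2 j
    rw [mem] at h1
    have h2 : {l | e l ≤ e j} = {l | A j ≤ A l} := by
      ext l
      exact heA j l
    rwa [h2] at h1
  refine ⟨fun C D hD hC hCe => ?_, fun P hP hdiv D hD hframe => ⟨fun i hi hlog => ?_,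
    fun hlog => LW_reg_inv hs p hP hdiv hframe hlog⟩⟩
  · have hCA : ∀ i j, C i j ≠ 0 → A i ≤ A j := fun i j h => (heA i j).1 (hCe i j h)
    have hdet := det_blocks hCe
    have hd : ∀ u ∈ Finset.univ.image e, (C.toSquareBlock e u).det ≠ 0 := by
      rw [hdet] at hC
      exact fun u hu => Finset.prod_ne_zero_iff.1 hC u hu
    have hchi : chi A q C = ∏ t ∈ Finset.univ.image e, (C.toSquareBlock e t).det ^
        ((m' + k * ∑ x, a x - t) / Fintype.card Q).toNat := by
      rw [chi_congr heq q C]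
      refine chi_eq (Q := fun t => ((m' + k * ∑ x, a x - t) / Fintype.card Q).toNat) (fun j => ?_) C
      rw [he, sub_sub_cancel, Int.mul_ediv_cancel_left _ hQ0'.ne', Int.toNat_natCast]
    have hchi0 : chi A q C ≠ 0 := by
      rw [hchi]
      exact Finset.prod_ne_zero_iff.2 fun u hu => pow_ne_zero _ (hd u hu)
    have h1 := LW_lt hqA (a := a) (fun x => (hs x).1) hp hm' hD.1
      (hsupp D hD.1 (hadapt D hD)) hC hCA hchi0
    rw [h1]
    congr 1
    rw [hchi, ← Finset.prod_pow, ← Finset.prod_inv_distrib]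
    have h2 : C.det ^ ((m' : ℤ) + k * ∑ x, a x) = ∏ u ∈ Finset.univ.image e,
        (C.toSquareBlock e u).det ^ ((m' : ℤ) + k * ∑ x, a x) := by
      rw [hdet, Finset.prod_zpow]
    rw [h2, ← Finset.prod_mul_distrib]
    refine Finset.prod_congr rfl fun u hu => ?_
    obtain ⟨j, -, hj⟩ := Finset.mem_image.1 hu
    have h3 : ((m' + k * ∑ x, a x - u) / Fintype.card Q).toNat = q j := by
      rw [← hj, he, sub_sub_cancel, Int.mul_ediv_cancel_left _ hQ0'.ne', Int.toNat_natCast]
    rw [h3, ← pow_mul, ← zpow_natCast, ← zpow_neg, ← zpow_add₀ (hd u hu)]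
    congr 1
    rw [← hj, he]
    push_cast
    ring
  · have hlog' : ∀ j, A i < A j → VLog ι P (D j) := by
      intro j hj
      refine hlog j ?_
      rw [← not_le]
      intro h
      exact absurd ((heA j i).1 h) (not_le.2 hj)
    have h1 := LW_reg hδ (Qf := fun t => (κ0 + m * t).toNat) (fun j => by
      have := hq j
      omega) hs hp hm' hD.1 (hsupp D hD.1 (hadapt D hD)) hP hdiv hframe hi hlog'
    refine Gr.mono (le_of_eq ?_) h1
    rw [he]
    push_cast
    ring

end Pool.Agent.Helper91.FD
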